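import Pool.Agent.H61.OT.Fam

/-!
# All lattice points of the moment polytope of a product of projective spaces and del Pezzo varieties
-/

open MeasureTheory Matrix Filter Topology

namespace Pool.Agent.H61.OT

variable {k : ℕ} (a : Fin k → ℕ) (t : Fin k → Bool)

/-- The nonzero lattice points of the moment polytope of a factor, in homogeneous coordinates. -/
structure IsPt {n : ℕ} (b : Bool) (m : Option (Fin n) → ℝ) : Prop where
  sum : ∑ d, m d = 0
  ne : ∃ d, m d ≠ 0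
  int : ∀ d, ∃ z : ℤ, m d = z
  le : ∀ d, m d ≤ 1
  ge : b = true → ∀ d, -1 ≤ m d

/-- The lattice points of the moment polytope all of whose components are nonzero. -/
def allP : Set (Idx a → ℝ) :=
  {p | ∃ m : Hom a → ℝ, (∀ i, IsPt (t i) fun d => m ⟨i, d⟩) ∧ p = toM a m}

variable {a t}

theorem IsVert.isPt {n : ℕ} (hn : 1 ≤ n) {b : Bool} {m : Option (Fin n) → ℝ} (h : IsVert b m) :
    IsPt b m where
  sum := h.sum_eq
  ne := by
    obtain ⟨d, hd⟩ := h.exists_one hn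
    exact ⟨d, by rw [hd]; exact one_ne_zero⟩
  int := by
    intro d
    cases b
    · obtain ⟨c, hc⟩ := h
      rw [hc]
      split_ifs
      · exact ⟨-(n : ℤ), by push_cast; rfl⟩
      · exact ⟨1, by push_cast; rfl⟩
    · obtain ⟨⟨c, hc, hd⟩, -⟩ := h
      by_cases h1 : d = c
      · exact ⟨0, by rw [h1, hc]; push_cast; rfl⟩
      · rcases hd d h1 with h2 | h2
        · exact ⟨1, by rw [h2]; push_cast; rfl⟩
        · exact ⟨-1, by rw [h2]; push_cast; rfl⟩
  le := h.le_one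
  ge := by
    intro hb
    subst hb
    exact h.ge_neg_one

theorem IsPt.comp {n : ℕ} {b : Bool} {m : Option (Fin n) → ℝ} (h : IsPt b m)
    (σ : Equiv.Perm (Option (Fin n))) : IsPt b (m ∘ σ) where
  sum := by
    rw [← h.sum]
    exact Equiv.sum_comp σ m
  ne := by
    obtain ⟨d, hd⟩ := h.ne
    exact ⟨σ.symm d, by rw [Function.comp, Equiv.apply_symm_apply]; exact hd⟩
  int := fun d => h.int (σ d)
  le := fun d => h.le (σ d)
  ge := fun hb d => h.ge hb (σ d)

/-- An integer at most `1` which is a positive real is `1`. -/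
theorem IsPt.exists_one {n : ℕ} {b : Bool} {m : Option (Fin n) → ℝ} (h : IsPt b m) :
    ∃ d, m d = 1 := by
  by_contra hcon
  push Not at hcon
  have h1 : ∀ d, m d ≤ 0 := by
    intro d
    obtain ⟨z, hz⟩ := h.int d
    have h2 := h.le d
    have h3 := hcon d
    rw [hz] at h2 h3 ⊢
    have h4 : z ≤ 1 := by exact_mod_cast h2
    have h5 : z ≠ 1 := by
      intro h6
      rw [h6] at h3
      exact h3 (by push_cast; rfl)
    have h6 : z ≤ 0 := by omega
    exact_mod_cast h6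
  obtain ⟨d, hd⟩ := h.ne
  have h2 := (Finset.sum_eq_zero_iff_of_nonpos fun e _ => h1 e).1 h.sum d (Finset.mem_univ d)
  exact hd h2

theorem IsPt.exists_neg_one {n : ℕ} {m : Option (Fin n) → ℝ} (h : IsPt true m) :
    ∃ d, m d = -1 := by
  have h' : IsPt true fun d => -m d :=
    { sum := by rw [Finset.sum_neg_distrib, h.sum, neg_zero]
      ne := by
        obtain ⟨d, hd⟩ := h.ne
        exact ⟨d, neg_ne_zero.2 hd⟩
      int := by
        intro d
        obtain ⟨z, hz⟩ := h.int d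
        exact ⟨-z, by rw [hz]; push_cast; rfl⟩
      le := fun d => by
        have := h.ge rfl d
        show -m d ≤ 1
        linarith
      ge := fun _ d => by
        have := h.le d
        show -1 ≤ -m d
        linarith }
  obtain ⟨d, hd⟩ := h'.exists_one
  have h3 : -m d = 1 := hd
  exact ⟨d, by linarith⟩

theorem famP_subset_allP (ha : ∀ i, 1 ≤ a i) : famP a t ⊆ allP a t := by
  rintro p ⟨m, hm, rfl⟩
  exact ⟨m, fun i => (hm i).isPt (ha i), rfl⟩

theorem pt_sum {m : Hom a → ℝ} (hm : ∀ i, IsPt (t i) fun d => m ⟨i, d⟩) (i : Fin k) :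
    ∑ d, m ⟨i, d⟩ = 0 := (hm i).sum

theorem pt_dot_ray {m : Hom a → ℝ} (hm : ∀ i, IsPt (t i) fun d => m ⟨i, d⟩) (h : Hom a) :
    toM a m ⬝ᵥ toN a (Pi.single h 1) = m h := by
  rw [fam_pair (pt_sum hm)]
  simp [Pi.single_apply]

theorem all_le {p q : Idx a → ℝ} (hp : p ∈ allP a t) (hq : q ∈ famQ a t) : p ⬝ᵥ q ≤ 1 := by
  obtain ⟨m, hm, rfl⟩ := hp
  obtain ⟨h, rfl | ⟨hh, rfl⟩⟩ := hq
  · rw [pt_dot_ray hm]
    exact (hm h.1).le h.2
  · rw [dotProduct_neg, pt_dot_ray hm]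
    have h1 : -1 ≤ m h := (hm h.1).ge hh h.2
    linarith

theorem all_hull (ha : ∀ i, 1 ≤ a i) (ht : ∀ i, t i = true → Even (a i)) :
    convexHull ℝ (allP a t) = convexHull ℝ (famP a t) := by
  apply Set.Subset.antisymm
  · rw [← fam_dualQ ht]
    refine convexHull_min ?_ (convex_polar _)
    intro p hp q hq
    exact all_le hp hq
  · exact convexHull_mono (famP_subset_allP ha)

theorem all_dualQ (ha : ∀ i, 1 ≤ a i) (ht : ∀ i, t i = true → Even (a i)) :
    polar (famQ a t) = convexHull ℝ (allP a t) := by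
  rw [all_hull ha ht, fam_dualQ ht]

theorem all_dualP (hk : 0 < k) (ha : ∀ i, 1 ≤ a i) (ht : ∀ i, t i = true → Even (a i)) :
    polar (allP a t) = convexHull ℝ (famQ a t) := by
  apply Set.Subset.antisymm
  · rw [← fam_dualP hk ht]
    intro n hn p hp
    exact hn p (famP_subset_allP ha hp)
  · refine convexHull_min ?_ (convex_polar _)
    intro q hq p hp
    rw [dotProduct_comm]
    exact all_le hp hq

/-- The entries are bounded below. -/
theorem IsPt.ge_neg {n : ℕ} {b : Bool} {m : Option (Fin n) → ℝ} (h : IsPt b m)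
    (d : Option (Fin n)) : -(n : ℝ) ≤ m d := by
  have h1 : m d = -∑ e ∈ Finset.univ.erase d, m e := by
    have h2 := h.sum
    rw [← Finset.add_sum_erase _ _ (Finset.mem_univ d)] at h2
    linarith
  have h2 : ∑ e ∈ Finset.univ.erase d, m e ≤ ∑ _e ∈ Finset.univ.erase d, (1 : ℝ) :=
    Finset.sum_le_sum fun e _ => h.le e
  rw [Finset.sum_const, nsmul_eq_mul, mul_one, Finset.card_erase_of_mem (Finset.mem_univ d),
    Finset.card_univ, Fintype.card_option, Fintype.card_fin, Nat.add_sub_cancel] at h2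
  linarith

theorem allP_finite : (allP a t).Finite := by
  have h1 : {m : Hom a → ℝ | ∀ h, m h ∈ (fun z : ℤ => (z : ℝ)) '' Set.Icc (-(a h.1 : ℤ)) 1}.Finite :=
    Set.Finite.pi' fun h => (Set.finite_Icc _ _).image _
  refine (h1.image (toM a)).subset ?_
  rintro p ⟨m, hm, rfl⟩
  refine ⟨m, fun h => ?_, rfl⟩
  obtain ⟨z, hz⟩ := (hm h.1).int h.2
  have hz' : m h = z := hz
  have h2 : m h ≤ 1 := (hm h.1).le h.2
  have h3 : -(a h.1 : ℝ) ≤ m h := (hm h.1).ge_neg h.2
  rw [hz'] at h2 h3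
  refine ⟨z, ⟨by exact_mod_cast h3, by exact_mod_cast h2⟩, hz'.symm⟩

theorem all_reflP {r : (Idx a → ℝ) × (Idx a → ℝ)} (hr : r ∈ famR a) {p : Idx a → ℝ}
    (hp : p ∈ allP a t) : refl r.1 r.2 p ∈ allP a t := by
  obtain ⟨⟨i, d⟩, ⟨i', d'⟩, hh, hne, rfl⟩ := hr
  obtain rfl : i = i' := hh
  obtain ⟨m, hm, rfl⟩ := hp
  refine ⟨m ∘ Equiv.swap ⟨i, d⟩ ⟨i, d'⟩, fun i₂ => ?_, ?_⟩
  · by_cases hi : i₂ = i
    · subst hi
      have h1 : (fun e => (m ∘ Equiv.swap (⟨i₂, d⟩ : Hom a) ⟨i₂, d'⟩) ⟨i₂, e⟩) =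
          (fun e => m ⟨i₂, e⟩) ∘ Equiv.swap d d' := by
        ext e
        simp only [Function.comp]
        by_cases h1 : e = d
        · subst h1; rw [Equiv.swap_apply_left, Equiv.swap_apply_left]
        · by_cases h2 : e = d'
          · subst h2; rw [Equiv.swap_apply_right, Equiv.swap_apply_right]
          · rw [Equiv.swap_apply_of_ne_of_ne h1 h2, Equiv.swap_apply_of_ne_of_ne]
            · intro h3; exact h1 (eq_of_heq (Sigma.mk.inj_iff.1 h3).2)
            · intro h3; exact h2 (eq_of_heq (Sigma.mk.inj_iff.1 h3).2)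
      rw [h1]
      exact (hm i₂).comp _
    · have h1 : (fun e => (m ∘ Equiv.swap (⟨i, d⟩ : Hom a) ⟨i, d'⟩) ⟨i₂, e⟩) =
          fun e => m ⟨i₂, e⟩ := by
        ext e
        simp only [Function.comp]
        rw [Equiv.swap_apply_of_ne_of_ne]
        · intro h3; exact hi (Sigma.mk.inj_iff.1 h3).1
        · intro h3; exact hi (Sigma.mk.inj_iff.1 h3).1
      rw [h1]
      exact hm i₂
  · rw [comp_swap, toM_sub m, toM_smul]
    unfold refl
    simp only
    rw [toN_sub, dotProduct_sub, pt_dot_ray hm, pt_dot_ray hm]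

theorem all_chamber {p q : Idx a → ℝ} (hp : p ∈ allP a t)
    (hq : q ∈ famQ a t) (H : ∀ r ∈ famR a, 0 ≤ (p ⬝ᵥ r.2) * (q ⬝ᵥ r.1)) : p ⬝ᵥ q = 1 := by
  obtain ⟨m, hm, rfl⟩ := hp
  have key : ∀ (h h' : Hom a), h.1 = h'.1 → h ≠ h' →
      toM a m ⬝ᵥ toN a (Pi.single h 1 - Pi.single h' 1) = m h - m h' := by
    intro h h' _ _
    rw [toN_sub, dotProduct_sub, pt_dot_ray hm, pt_dot_ray hm]
  obtain ⟨⟨i, d⟩, rfl | ⟨hg, rfl⟩⟩ := hq
  · rw [pt_dot_ray hm]
    obtain ⟨e, he⟩ := (hm i).exists_one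
    by_cases hed : e = d
    · subst hed; exact he
    · have hne : (⟨i, d⟩ : Hom a) ≠ ⟨i, e⟩ := by
        intro h; exact hed (eq_of_heq (Sigma.mk.inj_iff.1 h).2).symm
      have h1 := H _ ⟨⟨i, d⟩, ⟨i, e⟩, rfl, hne, rfl⟩
      simp only at h1
      rw [key ⟨i, d⟩ ⟨i, e⟩ rfl hne, dotProduct_comm, diff_pair (h := ⟨i, d⟩) (h' := ⟨i, e⟩) rfl,
        Pi.single_eq_same, Pi.single_eq_of_ne hne.symm] at h1
      have h2 : m ⟨i, e⟩ = 1 := he
      have h3 : m ⟨i, d⟩ ≤ 1 := (hm i).le d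
      linarith
  · rw [dotProduct_neg, pt_dot_ray hm]
    have h0 := hm i
    have hg' : t i = true := hg
    rw [hg'] at h0
    obtain ⟨e, he⟩ := h0.exists_neg_one
    by_cases hed : e = d
    · subst hed
      have : m ⟨i, e⟩ = -1 := he
      rw [this, neg_neg]
    · have hne : (⟨i, d⟩ : Hom a) ≠ ⟨i, e⟩ := by
        intro h; exact hed (eq_of_heq (Sigma.mk.inj_iff.1 h).2).symm
      have h1 := H _ ⟨⟨i, d⟩, ⟨i, e⟩, rfl, hne, rfl⟩
      simp only at h1
      rw [key ⟨i, d⟩ ⟨i, e⟩ rfl hne, neg_dotProduct, dotProduct_comm,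
        diff_pair (h := ⟨i, d⟩) (h' := ⟨i, e⟩) rfl,
        Pi.single_eq_same, Pi.single_eq_of_ne hne.symm] at h1
      have h2 : m ⟨i, e⟩ = -1 := he
      have h3 : -1 ≤ m ⟨i, d⟩ := h0.ge rfl d
      linarith

end Pool.Agent.H61.OT
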