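import Pool.Agent.H15.SYZ.RootD

/-!
# Cubes and cross polytopes with all their lattice points
-/

open Matrix Filter Topology

namespace Pool.Agent.H61.OT.Weyl

/-- The nonzero vectors with coordinates `-1`, `0`, `1`. -/
def cubeP (n : ℕ) : Set (Fin n → ℝ) := {p | (∀ i, p i = -1 ∨ p i = 0 ∨ p i = 1) ∧ p ≠ 0}

/-- The vectors `± e_i`. -/
def crossQ (n : ℕ) : Set (Fin n → ℝ) := {q | ∃ i, ∃ s : ℝ, (s = 1 ∨ s = -1) ∧ q = Pi.single i s}

/-- The integral vectors whose absolute values have the sum `2`: the vectors `± 2 e_i` and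
`± e_i ± e_j`. -/
def crossP (n : ℕ) : Set (Fin n → ℝ) := {p | (∀ i, ∃ z : ℤ, p i = z) ∧ ∑ i, |p i| = 2}

/-- The vectors all of whose coordinates are `± 1/2`. -/
def cubeQ (n : ℕ) : Set (Fin n → ℝ) := {q | ∀ i, q i = 1 / 2 ∨ q i = -1 / 2}

/-- The sign changes. -/
def signR (n : ℕ) : Set ((Fin n → ℝ) × (Fin n → ℝ)) := {r | ∃ i, r = (Pi.single i 1, Pi.single i 2)}

/-- The reflections of the hyperoctahedral group. -/
def cubeR (n : ℕ) : Set ((Fin n → ℝ) × (Fin n → ℝ)) := signR n ∪ dR n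

variable {n : ℕ}

theorem cubeP_finite : (cubeP n).Finite := by
  have h1 : (Set.pi Set.univ fun _ : Fin n => ({-1, 0, 1} : Set ℝ)).Finite :=
    Set.Finite.pi fun _ => Set.toFinite _
  refine h1.subset ?_
  rintro p ⟨hp, -⟩ i _
  rcases hp i with h | h | h <;> rw [h] <;> simp

theorem crossQ_finite : (crossQ n).Finite := by
  have h1 : (Set.pi Set.univ fun _ : Fin n => ({-1, 0, 1} : Set ℝ)).Finite :=
    Set.Finite.pi fun _ => Set.toFinite _
  refine h1.subset ?_
  rintro p ⟨i, s, hs, rfl⟩ k _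
  by_cases hk : k = i
  · subst hk
    rw [Pi.single_eq_same]
    rcases hs with rfl | rfl <;> simp
  · rw [Pi.single_eq_of_ne hk]
    simp

theorem cubeQ_finite : (cubeQ n).Finite := by
  have h1 : (Set.pi Set.univ fun _ : Fin n => ({1 / 2, -1 / 2} : Set ℝ)).Finite :=
    Set.Finite.pi fun _ => Set.toFinite _
  refine h1.subset ?_
  intro q hq k _
  rcases hq k with h | h <;> rw [h] <;> simp

theorem crossP_abs_le {p : Fin n → ℝ} (hp : p ∈ crossP n) (i : Fin n) : |p i| ≤ 2 := by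
  rw [← hp.2]
  exact Finset.single_le_sum (f := fun i => |p i|) (fun j _ => abs_nonneg (p j)) (Finset.mem_univ i)

theorem crossP_finite : (crossP n).Finite := by
  have h1 : (Set.pi Set.univ fun _ : Fin n => (fun z : ℤ => (z : ℝ)) '' Set.Icc (-2) 2).Finite :=
    Set.Finite.pi fun _ => (Set.finite_Icc _ _).image _
  refine h1.subset ?_
  intro p hp i _
  obtain ⟨z, hz⟩ := hp.1 i
  have h2 := abs_le.1 (crossP_abs_le hp i)
  rw [hz] at h2
  exact ⟨z, ⟨by exact_mod_cast h2.1, by exact_mod_cast h2.2⟩, hz.symm⟩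

theorem signR_finite : (signR n).Finite := by
  refine (Set.finite_range fun i : Fin n =>
    ((Pi.single i 1, Pi.single i 2) : (Fin n → ℝ) × (Fin n → ℝ))).subset ?_
  rintro r ⟨i, rfl⟩
  exact ⟨i, rfl⟩

theorem cubeR_finite : (cubeR n).Finite := signR_finite.union dR_finite

theorem sign_root {r : (Fin n → ℝ) × (Fin n → ℝ)} (hr : r ∈ signR n) : r.1 ⬝ᵥ r.2 = 2 := by
  obtain ⟨i, rfl⟩ := hr
  show (Pi.single i 1 : Fin n → ℝ) ⬝ᵥ Pi.single i 2 = 2
  rw [single_one_dotProduct, Pi.single_eq_same]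

theorem cube_root {r : (Fin n → ℝ) × (Fin n → ℝ)} (hr : r ∈ cubeR n) : r.1 ⬝ᵥ r.2 = 2 := by
  rcases hr with hr | hr
  · exact sign_root hr
  · exact d_root hr

theorem sign_refl (i : Fin n) (x : Fin n → ℝ) :
    refl (Pi.single i 1) (Pi.single i 2) x = fun k => if k = i then -x i else x k := by
  ext k
  unfold refl
  rw [dotProduct_comm, single_dotProduct]
  simp only [Pi.sub_apply, Pi.smul_apply, smul_eq_mul]
  by_cases hk : k = i
  · subst hk
    rw [if_pos rfl, Pi.single_eq_same]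
    ring
  · rw [if_neg hk, Pi.single_eq_of_ne hk]
    ring

theorem sign_refl' (i : Fin n) (x : Fin n → ℝ) :
    refl (Pi.single i 2) (Pi.single i 1) x = fun k => if k = i then -x i else x k := by
  ext k
  unfold refl
  rw [dotProduct_comm, single_dotProduct]
  simp only [Pi.sub_apply, Pi.smul_apply, smul_eq_mul]
  by_cases hk : k = i
  · subst hk
    rw [if_pos rfl, Pi.single_eq_same]
    ring
  · rw [if_neg hk, Pi.single_eq_of_ne hk]
    ring

theorem cubeP_le {p q : Fin n → ℝ} (hp : p ∈ cubeP n) (hq : q ∈ crossQ n) : p ⬝ᵥ q ≤ 1 := by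
  obtain ⟨i, s, hs, rfl⟩ := hq
  rw [dotProduct_comm, single_dotProduct]
  rcases hs with rfl | rfl <;> rcases hp.1 i with h | h | h <;> rw [h] <;> norm_num

theorem crossP_le {p q : Fin n → ℝ} (hp : p ∈ crossP n) (hq : q ∈ cubeQ n) : p ⬝ᵥ q ≤ 1 := by
  have h1 : p ⬝ᵥ q ≤ ∑ i, |p i| / 2 := by
    refine Finset.sum_le_sum fun i _ => ?_
    have h2 := le_abs_self (p i)
    have h3 := neg_le_abs (p i)
    rcases hq i with h | h <;> rw [h] <;> linarith
  rw [← Finset.sum_div, hp.2] at h1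
  linarith

/-- The cube with the vertices `(± 1, …, ± 1)`. -/
theorem mem_cubeP {y : Fin n → ℝ} (hn : 1 ≤ n) (hy : ∀ i, |y i| ≤ 1) :
    y ∈ convexHull ℝ (cubeP n) := by
  have h1 : y ∈ convexHull ℝ (Set.pi Set.univ fun _ : Fin n => ({-1, 1} : Set ℝ)) := by
    rw [convexHull_pi]
    intro i _
    rw [convexHull_pair, segment_eq_Icc (by norm_num)]
    have := abs_le.1 (hy i)
    exact ⟨by linarith [this.1], this.2⟩
  refine convexHull_mono ?_ h1
  intro z hz
  have h2 : ∀ i, z i = -1 ∨ z i = 1 := fun i => hz i (Set.mem_univ i)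
  refine ⟨fun i => ?_, fun h0 => ?_⟩
  · rcases h2 i with h | h
    · exact Or.inl h
    · exact Or.inr (Or.inr h)
  · have h3 := h2 ⟨0, hn⟩
    rw [h0] at h3
    norm_num at h3

theorem mem_cubeQ {y : Fin n → ℝ} (hy : ∀ i, |y i| ≤ 1 / 2) : y ∈ convexHull ℝ (cubeQ n) := by
  have h1 : y ∈ convexHull ℝ (Set.pi Set.univ fun _ : Fin n => ({-1 / 2, 1 / 2} : Set ℝ)) := by
    rw [convexHull_pi]
    intro i _
    rw [convexHull_pair, segment_eq_Icc (by norm_num)]
    have := abs_le.1 (hy i)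
    exact ⟨by linarith [this.1], this.2⟩
  refine convexHull_mono ?_ h1
  intro z hz i
  have h2 : z i = -1 / 2 ∨ z i = 1 / 2 := hz i (Set.mem_univ i)
  exact h2.symm

theorem cube_dualQ (hn : 1 ≤ n) : polar (crossQ n) = convexHull ℝ (cubeP n) := by
  apply Set.Subset.antisymm
  · intro m hm
    refine mem_cubeP hn fun i => abs_le.2 ⟨?_, ?_⟩
    · have h1 := hm (Pi.single i (-1)) ⟨i, -1, Or.inr rfl, rfl⟩
      rw [dotProduct_comm, single_dotProduct] at h1
      linarith
    · have h1 := hm (Pi.single i 1) ⟨i, 1, Or.inl rfl, rfl⟩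
      rw [dotProduct_comm, single_dotProduct] at h1
      linarith
  · refine convexHull_min ?_ (convex_polar _)
    intro p hp q hq
    exact cubeP_le hp hq

theorem zero_mem_crossQ (hn : 1 ≤ n) : (0 : Fin n → ℝ) ∈ convexHull ℝ (crossQ n) := by
  set i : Fin n := ⟨0, hn⟩
  have h3 := (convex_convexHull ℝ (crossQ n))
    (subset_convexHull ℝ _ (⟨i, 1, Or.inl rfl, rfl⟩ : (Pi.single i 1 : Fin n → ℝ) ∈ crossQ n))
    (subset_convexHull ℝ _ (⟨i, -1, Or.inr rfl, rfl⟩ : (Pi.single i (-1) : Fin n → ℝ) ∈ crossQ n))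
    (a := 1 / 2) (b := 1 / 2) (by norm_num) (by norm_num) (by norm_num)
  convert h3 using 1
  rw [Pi.single_neg]
  module

theorem cube_dualP (hn : 1 ≤ n) : polar (cubeP n) = convexHull ℝ (crossQ n) :=
  dual_of_dual crossQ_finite (zero_mem_crossQ hn) (cube_dualQ hn)

theorem double_mem (i : Fin n) {s : ℝ} (hs : s = 2 ∨ s = -2) : (Pi.single i s : Fin n → ℝ) ∈ crossP n := by
  have hs2 : |s| = 2 := by rcases hs with rfl | rfl <;> norm_num
  refine ⟨fun k => ?_, ?_⟩
  · by_cases hk : k = i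
    · subst hk
      rw [Pi.single_eq_same]
      rcases hs with rfl | rfl
      · exact ⟨2, by norm_num⟩
      · exact ⟨-2, by norm_num⟩
    · rw [Pi.single_eq_of_ne hk]
      exact ⟨0, by norm_num⟩
  · rw [Finset.sum_eq_single i]
    · rw [Pi.single_eq_same, hs2]
    · intro k _ hk
      rw [Pi.single_eq_of_ne hk, abs_zero]
    · intro h
      exact absurd (Finset.mem_univ i) h

theorem cross_dualP : polar (crossP n) = convexHull ℝ (cubeQ n) := by
  apply Set.Subset.antisymm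
  · intro m hm
    refine mem_cubeQ fun i => abs_le.2 ⟨?_, ?_⟩
    · have h1 := hm (Pi.single i (-2)) (double_mem i (Or.inr rfl))
      rw [dotProduct_comm, single_dotProduct] at h1
      linarith
    · have h1 := hm (Pi.single i 2) (double_mem i (Or.inl rfl))
      rw [dotProduct_comm, single_dotProduct] at h1
      linarith
  · refine convexHull_min ?_ (convex_polar _)
    intro q hq p hp
    rw [dotProduct_comm]
    exact crossP_le hp hq

theorem zero_mem_crossP (hn : 1 ≤ n) : (0 : Fin n → ℝ) ∈ convexHull ℝ (crossP n) := by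
  set i : Fin n := ⟨0, hn⟩
  have h3 := (convex_convexHull ℝ (crossP n))
    (subset_convexHull ℝ _ (double_mem i (Or.inl rfl)))
    (subset_convexHull ℝ _ (double_mem i (Or.inr rfl)))
    (a := 1 / 2) (b := 1 / 2) (by norm_num) (by norm_num) (by norm_num)
  convert h3 using 1
  rw [Pi.single_neg]
  module

theorem cross_dualQ (hn : 1 ≤ n) : polar (cubeQ n) = convexHull ℝ (crossP n) :=
  dual_of_dual crossP_finite (zero_mem_crossP hn) cross_dualP

theorem cube_reflP {r : (Fin n → ℝ) × (Fin n → ℝ)} (hr : r ∈ cubeR n) {p : Fin n → ℝ}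
    (hp : p ∈ cubeP n) : refl r.1 r.2 p ∈ cubeP n := by
  have hne : refl r.1 r.2 p ≠ 0 := by
    intro h
    have h1 := refl_refl (cube_root hr) p
    rw [h, refl_zero'] at h1
    exact hp.2 h1.symm
  refine ⟨?_, hne⟩
  rcases hr with ⟨i, rfl⟩ | ⟨⟨i, j, hij, s, t, hs, ht, h⟩, h2⟩
  · intro k
    show refl (Pi.single i 1) (Pi.single i 2) p k = -1 ∨
      refl (Pi.single i 1) (Pi.single i 2) p k = 0 ∨ refl (Pi.single i 1) (Pi.single i 2) p k = 1
    rw [sign_refl]
    simp only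
    by_cases hk : k = i
    · rw [if_pos hk]
      rcases hp.1 i with h | h | h <;> rw [h] <;> norm_num
    · rw [if_neg hk]
      exact hp.1 k
  · rw [h2, h]
    intro k
    rw [d_refl hij hs ht]
    have hst : -(s * t) = 1 ∨ -(s * t) = -1 := by
      rcases hs with rfl | rfl <;> rcases ht with rfl | rfl <;> norm_num
    have key : ∀ l, -(s * t) * p l = -1 ∨ -(s * t) * p l = 0 ∨ -(s * t) * p l = 1 := by
      intro l
      rcases hst with h3 | h3 <;> rcases hp.1 l with h4 | h4 | h4 <;> rw [h3, h4] <;> norm_num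
    simp only
    split_ifs
    · exact key j
    · exact key i
    · exact hp.1 k

theorem cube_reflQ {r : (Fin n → ℝ) × (Fin n → ℝ)} (hr : r ∈ cubeR n) {q : Fin n → ℝ}
    (hq : q ∈ crossQ n) : refl r.2 r.1 q ∈ crossQ n := by
  obtain ⟨k, u, hu, rfl⟩ := hq
  rcases hr with ⟨i, rfl⟩ | ⟨⟨i, j, hij, s, t, hs, ht, h⟩, h2⟩
  · show refl (Pi.single i 2) (Pi.single i 1) (Pi.single k u) ∈ crossQ n
    rw [sign_refl']
    by_cases hk : k = i
    · subst hk
      refine ⟨k, -u, by rcases hu with rfl | rfl <;> norm_num, ?_⟩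
      ext l
      by_cases hl : l = k
      · subst hl
        rw [if_pos rfl, Pi.single_eq_same, Pi.single_eq_same]
      · rw [if_neg hl, Pi.single_eq_of_ne hl, Pi.single_eq_of_ne hl]
    · refine ⟨k, u, hu, ?_⟩
      ext l
      by_cases hl : l = i
      · subst hl
        rw [if_pos rfl, Pi.single_eq_of_ne (Ne.symm hk), neg_zero]
      · rw [if_neg hl]
  · rw [h2, h]
    obtain ⟨u', hu', e1⟩ := d_refl_single hij hs ht k u hu
    rw [e1]
    exact ⟨_, u', hu', rfl⟩

theorem cube_chamber {p q : Fin n → ℝ} (hp : p ∈ cubeP n) (hq : q ∈ crossQ n)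
    (H : ∀ r ∈ cubeR n, 0 ≤ (p ⬝ᵥ r.2) * (q ⬝ᵥ r.1)) : p ⬝ᵥ q = 1 := by
  obtain ⟨i, s, hs, rfl⟩ := hq
  rw [dotProduct_comm, single_dotProduct]
  have hs2 : s * s = 1 := by rcases hs with rfl | rfl <;> norm_num
  have h1 := H (Pi.single i 1, Pi.single i 2) (Or.inl ⟨i, rfl⟩)
  simp only at h1
  rw [dotProduct_comm p, single_dotProduct, single_dotProduct, Pi.single_eq_same] at h1
  rcases hp.1 i with h | h | h
  · rw [h] at h1 ⊢
    rcases hs with rfl | rfl
    · norm_num at h1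
    · norm_num
  · exfalso
    obtain ⟨j, hj⟩ : ∃ j, p j ≠ 0 := by
      by_contra hcon
      push Not at hcon
      exact hp.2 (funext hcon)
    have hij : i ≠ j := by
      intro e
      subst e
      exact hj h
    have h2 : ∀ t : ℝ, (t = 1 ∨ t = -1) → 0 ≤ (t * p j) * s := by
      intro t ht
      have h3 := H (Pi.single i 1 + Pi.single j t, Pi.single i 1 + Pi.single j t)
        (Or.inr ⟨⟨i, j, hij, 1, t, Or.inl rfl, ht, rfl⟩, rfl⟩)
      simp only at h3
      rw [dotProduct_comm p, dP_dot, single_dotProduct, Pi.add_apply, Pi.single_eq_same,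
        Pi.single_eq_of_ne hij, h] at h3
      linarith
    have h3 := h2 1 (Or.inl rfl)
    have h4 := h2 (-1) (Or.inr rfl)
    have h5 : p j * s = 0 := by linarith
    rcases mul_eq_zero.1 h5 with h6 | h6
    · exact hj h6
    · rw [h6] at hs2
      norm_num at hs2
  · rw [h] at h1 ⊢
    rcases hs with rfl | rfl
    · norm_num
    · norm_num at h1

theorem cross_reflP {r : (Fin n → ℝ) × (Fin n → ℝ)} (hr : r ∈ signR n) {p : Fin n → ℝ}
    (hp : p ∈ crossP n) : refl r.1 r.2 p ∈ crossP n := by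
  obtain ⟨i, rfl⟩ := hr
  show refl (Pi.single i 1) (Pi.single i 2) p ∈ crossP n
  rw [sign_refl]
  refine ⟨fun k => ?_, ?_⟩
  · simp only
    by_cases hk : k = i
    · rw [if_pos hk]
      obtain ⟨z, hz⟩ := hp.1 i
      exact ⟨-z, by rw [hz]; push_cast; rfl⟩
    · rw [if_neg hk]
      exact hp.1 k
  · rw [← hp.2]
    refine Finset.sum_congr rfl fun k _ => ?_
    show |if k = i then -p i else p k| = |p k|
    by_cases hk : k = i
    · rw [if_pos hk, abs_neg, hk]
    · rw [if_neg hk]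

theorem cross_reflQ {r : (Fin n → ℝ) × (Fin n → ℝ)} (hr : r ∈ signR n) {q : Fin n → ℝ}
    (hq : q ∈ cubeQ n) : refl r.2 r.1 q ∈ cubeQ n := by
  obtain ⟨i, rfl⟩ := hr
  show refl (Pi.single i 2) (Pi.single i 1) q ∈ cubeQ n
  rw [sign_refl']
  intro k
  simp only
  by_cases hk : k = i
  · rw [if_pos hk]
    rcases hq i with h | h <;> rw [h] <;> norm_num
  · rw [if_neg hk]
    exact hq k

theorem cross_chamber {p q : Fin n → ℝ} (hp : p ∈ crossP n) (hq : q ∈ cubeQ n)
    (H : ∀ r ∈ signR n, 0 ≤ (p ⬝ᵥ r.2) * (q ⬝ᵥ r.1)) : p ⬝ᵥ q = 1 := by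
  have h1 : p ⬝ᵥ q = ∑ i, |p i| / 2 := by
    refine Finset.sum_congr rfl fun i _ => ?_
    have h2 := H (Pi.single i 1, Pi.single i 2) ⟨i, rfl⟩
    simp only at h2
    rw [dotProduct_comm p, dotProduct_comm q, single_dotProduct, single_dotProduct] at h2
    rcases hq i with h | h <;> rw [h] at h2 ⊢
    · rw [abs_of_nonneg (by linarith)]
      ring
    · rw [abs_of_nonpos (by linarith)]
      ring
  rw [h1, ← Finset.sum_div, hp.2]
  norm_num

end Pool.Agent.H61.OT.Weyl
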