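import Pool.Agent.H15.SYZ.Weyl

/-!
# Finite root systems: vectors in a common closed chamber pair nonnegatively
-/

open Matrix

namespace Pool.Agent.H61.OT.Weyl

variable {ι : Type} [Fintype ι]

/-- The invariant form of a root system. -/
noncomputable def form {R : Set ((ι → ℝ) × (ι → ℝ))} (hR : R.Finite) (m n : ι → ℝ) : ℝ :=
  ∑ r ∈ hR.toFinset, (m ⬝ᵥ r.2) * (n ⬝ᵥ r.2)

theorem form_refl {R : Set ((ι → ℝ) × (ι → ℝ))} (hR : R.Finite)
    (hc : ∀ s ∈ R, ∀ r ∈ R, act s r ∈ R) {s : (ι → ℝ) × (ι → ℝ)} (hs : s ∈ R)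
    (h2 : s.1 ⬝ᵥ s.2 = 2) (m n : ι → ℝ) :
    form hR (refl s.1 s.2 m) (refl s.1 s.2 n) = form hR m n := by
  unfold form
  refine Finset.sum_nbij' (act s) (act s) (fun r hr => ?_) (fun r hr => ?_) (fun r _ => ?_)
    (fun r _ => ?_) (fun r _ => ?_)
  · exact hR.mem_toFinset.2 (hc s hs r (hR.mem_toFinset.1 hr))
  · exact hR.mem_toFinset.2 (hc s hs r (hR.mem_toFinset.1 hr))
  · exact act_act h2 r
  · exact act_act h2 r
  · have key : ∀ x : ι → ℝ, x ⬝ᵥ (act s r).2 = refl s.1 s.2 x ⬝ᵥ r.2 := by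
      intro x
      simp only [act, refl, sub_dotProduct, dotProduct_sub, smul_dotProduct, dotProduct_smul,
        smul_eq_mul]
      rw [dotProduct_comm s.1 r.2]
      ring
    rw [key, key]

theorem form_add_right {R : Set ((ι → ℝ) × (ι → ℝ))} (hR : R.Finite) (m n k : ι → ℝ) :
    form hR m (n + k) = form hR m n + form hR m k := by
  simp only [form, add_dotProduct, mul_add, Finset.sum_add_distrib]

theorem form_smul_right {R : Set ((ι → ℝ) × (ι → ℝ))} (hR : R.Finite) (c : ℝ) (m n : ι → ℝ) :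
    form hR m (c • n) = c * form hR m n := by
  simp only [form, smul_dotProduct, smul_eq_mul, Finset.mul_sum]
  exact Finset.sum_congr rfl fun r _ => by ring

theorem form_comm {R : Set ((ι → ℝ) × (ι → ℝ))} (hR : R.Finite) (m n : ι → ℝ) :
    form hR m n = form hR n m :=
  Finset.sum_congr rfl fun r _ => mul_comm _ _

/-- The coroot is proportional to the root for the invariant form. -/
theorem form_root {R : Set ((ι → ℝ) × (ι → ℝ))} (hR : R.Finite)
    (hc : ∀ s ∈ R, ∀ r ∈ R, act s r ∈ R) {s : (ι → ℝ) × (ι → ℝ)} (hs : s ∈ R)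
    (h2 : s.1 ⬝ᵥ s.2 = 2) (m : ι → ℝ) :
    2 * form hR m s.1 = (m ⬝ᵥ s.2) * form hR s.1 s.1 := by
  have e1 := form_refl hR hc hs h2 m s.1
  have e2 : refl s.1 s.2 s.1 = (-1 : ℝ) • s.1 := by
    unfold refl
    rw [h2, two_smul, neg_one_smul]
    abel
  have e3 : refl s.1 s.2 m = m + (-(m ⬝ᵥ s.2)) • s.1 := by
    unfold refl
    rw [neg_smul, sub_eq_add_neg]
  rw [e2, form_smul_right, form_comm hR _ s.1, e3, form_add_right, form_smul_right,
    form_comm hR s.1 m] at e1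
  linarith

theorem form_root_pos {R : Set ((ι → ℝ) × (ι → ℝ))} (hR : R.Finite)
    {s : (ι → ℝ) × (ι → ℝ)} (hs : s ∈ R) (h2 : s.1 ⬝ᵥ s.2 = 2) : 0 < form hR s.1 s.1 := by
  refine Finset.sum_pos' (fun r _ => mul_self_nonneg _) ⟨s, hR.mem_toFinset.2 hs, ?_⟩
  rw [h2]
  norm_num

/-- Every covector is represented by the form, if no vector is killed by all coroots. -/
theorem exists_dual {R : Set ((ι → ℝ) × (ι → ℝ))} (hR : R.Finite)
    (hsp : ∀ m, (∀ r ∈ R, m ⬝ᵥ r.2 = 0) → m = 0) (q : ι → ℝ) :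
    ∃ x : ι → ℝ, ∀ m, m ⬝ᵥ q = form hR m x := by
  let G : (ι → ℝ) →ₗ[ℝ] (ι → ℝ) :=
    { toFun := fun m => ∑ r ∈ hR.toFinset, (m ⬝ᵥ r.2) • r.2
      map_add' := fun m n => by
        simp only [add_dotProduct, add_smul, Finset.sum_add_distrib]
      map_smul' := fun c m => by
        simp only [smul_dotProduct, smul_eq_mul, mul_smul, Finset.smul_sum, RingHom.id_apply] }
  have hG : ∀ m n, n ⬝ᵥ G m = form hR n m := by
    intro m n
    show n ⬝ᵥ (∑ r ∈ hR.toFinset, (m ⬝ᵥ r.2) • r.2) = _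
    rw [dotProduct_sum]
    refine Finset.sum_congr rfl fun r _ => ?_
    rw [dotProduct_smul, smul_eq_mul, mul_comm]
  have hinj : Function.Injective G := by
    rw [← LinearMap.ker_eq_bot, LinearMap.ker_eq_bot']
    intro m hm
    refine hsp m fun r hr => ?_
    have h1 : form hR m m = 0 := by rw [← hG, hm, dotProduct_zero]
    have h2 := (Finset.sum_eq_zero_iff_of_nonneg fun r _ => mul_self_nonneg (m ⬝ᵥ r.2)).1 h1 r
      (hR.mem_toFinset.2 hr)
    exact mul_self_eq_zero.1 h2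
  obtain ⟨x, hx⟩ := (LinearMap.injective_iff_surjective.1 hinj) q
  exact ⟨x, fun m => by rw [← hx, hG]⟩

/-- Vectors of a common closed chamber: the pairing is a sum of nonnegative terms, which vanish
only with the products of the values on a root and its coroot. -/
theorem chamber_pairing {R : Set ((ι → ℝ) × (ι → ℝ))} (hR : R.Finite)
    (h2 : ∀ r ∈ R, r.1 ⬝ᵥ r.2 = 2) (hc : ∀ s ∈ R, ∀ r ∈ R, act s r ∈ R)
    (hsp : ∀ m, (∀ r ∈ R, m ⬝ᵥ r.2 = 0) → m = 0) {p q : ι → ℝ}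
    (H : ∀ r ∈ R, 0 ≤ (p ⬝ᵥ r.2) * (q ⬝ᵥ r.1)) :
    0 ≤ p ⬝ᵥ q ∧ (p ⬝ᵥ q = 0 → ∀ r ∈ R, (p ⬝ᵥ r.2) * (q ⬝ᵥ r.1) = 0) := by
  obtain ⟨x, hx⟩ := exists_dual hR hsp q
  have e1 : ∀ r ∈ R, 2 * ((p ⬝ᵥ r.2) * (q ⬝ᵥ r.1)) =
      ((p ⬝ᵥ r.2) * (x ⬝ᵥ r.2)) * form hR r.1 r.1 := by
    intro r hr
    have e2 := form_root hR hc hr (h2 r hr) x
    rw [dotProduct_comm q, hx r.1, form_comm]
    linear_combination (p ⬝ᵥ r.2) * e2
  have e3 : ∀ r ∈ hR.toFinset, 0 ≤ (p ⬝ᵥ r.2) * (x ⬝ᵥ r.2) := by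
    intro r hr
    have hr' := hR.mem_toFinset.1 hr
    have e4 := H r hr'
    have e5 := e1 r hr'
    have e6 := form_root_pos hR hr' (h2 r hr')
    by_contra h
    have h' := not_le.1 h
    have e7 := mul_neg_of_neg_of_pos h' e6
    linarith
  refine ⟨?_, fun h0 r hr => ?_⟩
  · rw [hx]
    exact Finset.sum_nonneg e3
  · rw [hx] at h0
    have e4 := (Finset.sum_eq_zero_iff_of_nonneg e3).1 h0 r (hR.mem_toFinset.2 hr)
    have e5 := e1 r hr
    rw [e4, zero_mul] at e5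
    linarith

end Pool.Agent.H61.OT.Weyl
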