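import Pool.Agent.H2.MA.Main
import Pool.Agent.H2.MA.Potential

/-!
# The Monge-Ampere equation with an arbitrary right-hand side

The modules `MassEq`, `Borel` and `Main` of `Pool.Agent.H2.MA` with an arbitrary probability
measure `μ` on the open facets of `poly P h` instead of the normalised boundary measure.
-/

open MeasureTheory Matrix
open scoped ENNReal Pointwise
open Pool.Agent.H61.OT Pool.Agent.H99.SYZ Pool.Agent.H99.Unst Pool.Agent.H2.MA

namespace Pool.Agent.H15.MA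

variable {ι : Type} [Fintype ι] {P Q : Set (ι → ℝ)} {g h u v : (ι → ℝ) → ℝ}

theorem mass_eq_mu (HQ : Good Q g) {μ : Measure (ι → ℝ)}
    {γ : Measure ((ι → ℝ) × (ι → ℝ))} (hγ : IsPlan (bdProb Q g) μ γ) (hst : ∀ᵐ x ∂γ, x ∈ stab P Q g h)
    {E : Set ((ι → ℝ) × (ι → ℝ))} (hE : IsCompact E) (hEs : E ⊆ poly Q g ×ˢ poly P h)
    (hm : Mono E) (hγE : ∀ᵐ x ∂γ, x ∈ E) {p : ι → ℝ} (hp : p ∈ P) {A : Set (ι → ℝ)}
    (hA : IsCompact A) (hAf : A ⊆ face P h p) :
    MeasurableSet (pre E (top Q g p) A) ∧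
      bdProb Q g (pre E (top Q g p) A) = μ A ∧
      ∀ q ∈ Q, p ⬝ᵥ q ≠ 1 → bdProb Q g (pre E (top Q g p) A ∩ face Q g q) = 0 := by
  set F := pre E (top Q g p) A with hF
  have hFm : MeasurableSet F := by
    have h1 : F = top Q g p ∩ Prod.fst '' (E ∩ Prod.snd ⁻¹' A) := by
      ext m
      constructor
      · rintro ⟨h1, n, hn, h2⟩
        exact ⟨h1, (m, n), ⟨h2, hn⟩, rfl⟩
      · rintro ⟨h1, x, ⟨h2, h3⟩, rfl⟩
        exact ⟨h1, x.2, h3, h2⟩
    rw [h1]
    exact (measurableSet_top HQ.fin p).inter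
      ((hE.inter_right (hA.isClosed.preimage continuous_snd)).image continuous_fst).measurableSet
  have hN : ∀ q : ι → ℝ, ∃ N : Set (ι → ℝ), q ∈ Q → (MeasurableSet N ∧ bd Q g N = 0 ∧
      ∀ m ∈ face Q g q, m ∉ N → ∀ n n' p p' : ι → ℝ, (m, n) ∈ E → (m, n') ∈ E → p ∈ P → p' ∈ P →
        n ∈ face P h p → n' ∈ face P h p' → 0 < p ⬝ᵥ q → 0 < p' ⬝ᵥ q → n = n') := by
    intro q
    by_cases hq : q ∈ Q
    · obtain ⟨N, hN⟩ := exists_null HQ hE hEs hm hq
      exact ⟨N, fun _ => hN⟩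
    · exact ⟨∅, fun h => absurd h hq⟩
  choose N hN using hN
  have hae : ∀ᵐ x ∂γ, ∀ q ∈ Q, x.1 ∉ N q := by
    rw [Filter.eventually_all_finite HQ.fin]
    intro q hq
    obtain ⟨h1, h2, -⟩ := hN q hq
    have h3 : bdProb Q g (N q) = 0 := bdProb_null h2
    rw [← hγ.1, Measure.map_apply measurable_fst h1] at h3
    exact measure_eq_zero_iff_ae_notMem.1 h3
  have key : ∀ᵐ x ∂γ, (x.2 ∈ A → x.1 ∈ F) ∧ (x.1 ∈ F → x.2 ∈ A ∧
      ∀ q ∈ Q, x.1 ∈ face Q g q → p ⬝ᵥ q = 1) := by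
    filter_upwards [hst, hγE, hae] with x hx1 hx2 hx3
    obtain ⟨p', hp', q, hq, hpq, hxq, hxp⟩ := hx1
    constructor
    · intro hxA
      have h1 : p = p' := eq_of_mem_face hp hxp (hAf hxA).1
      subst h1
      exact ⟨⟨q, hq, by rw [hpq]; exact one_pos, hxq⟩, x.2, hxA, hx2⟩
    · rintro ⟨⟨q', hq', hpos, hxq'⟩, n, hn, hxn⟩
      have h1 : q' = q := eq_of_mem_face hq' hxq hxq'.1
      subst h1
      have h2 : x.2 = n := (hN q' hq').2.2 x.1 hxq (hx3 q' hq') x.2 n p' p hx2 hxn hp' hp hxp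
        (hAf hn) (by rw [hpq]; exact one_pos) hpos
      have h3 : x.2 ∈ A := by rw [h2]; exact hn
      have h4 : p = p' := eq_of_mem_face hp hxp (hAf h3).1
      refine ⟨h3, fun q hq hxq'' => ?_⟩
      have h5 : q = q' := eq_of_mem_face hq hxq hxq''.1
      rw [h5, h4]
      exact hpq
  refine ⟨hFm, ?_, ?_⟩
  · rw [← hγ.1, ← hγ.2, Measure.map_apply measurable_fst hFm,
      Measure.map_apply measurable_snd hA.measurableSet]
    refine measure_congr ?_
    filter_upwards [key] with x hx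
    exact propext ⟨fun h => (hx.2 h).1, fun h => hx.1 h⟩
  · intro q hq hpq
    rw [← hγ.1, Measure.map_apply measurable_fst (hFm.inter (measurableSet_face HQ.fin q))]
    refine measure_eq_zero_iff_ae_notMem.2 ?_
    filter_upwards [key] with x hx hxF
    exact hpq ((hx.2 hxF.1).2 q hq hxF.2)

/-- The set of the `m` in the slab whose line meets a partner of a point of `A`. -/
private def SS (p : ι → ℝ) (E : Set ((ι → ℝ) × (ι → ℝ))) (A : Set (ι → ℝ)) : Set (ι → ℝ) :=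
  {m | (0 ≤ m ⬝ᵥ p ∧ m ⬝ᵥ p < p ⬝ᵥ p) ∧ ∃ t : ℝ, ∃ n ∈ A, (m + t • p, n) ∈ E}

private theorem SS_mono {p : ι → ℝ} {E : Set ((ι → ℝ) × (ι → ℝ))} {A B : Set (ι → ℝ)}
    (hAB : A ⊆ B) : SS p E A ⊆ SS p E B := by
  rintro m ⟨h1, t, n, hn, h2⟩
  exact ⟨h1, t, n, hAB hn, h2⟩

private theorem SS_iUnion {p : ι → ℝ} {E : Set ((ι → ℝ) × (ι → ℝ))} {F : ℕ → Set (ι → ℝ)} :
    SS p E (⋃ k, F k) = ⋃ k, SS p E (F k) := by
  ext m
  constructor
  · rintro ⟨h1, t, n, hn, h2⟩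
    obtain ⟨k, hk⟩ := Set.mem_iUnion.1 hn
    exact Set.mem_iUnion.2 ⟨k, h1, t, n, hk, h2⟩
  · intro hm
    obtain ⟨k, h1, t, n, hn, h2⟩ := Set.mem_iUnion.1 hm
    exact ⟨h1, t, n, Set.mem_iUnion.2 ⟨k, hn⟩, h2⟩

private theorem measurableSet_SS {p : ι → ℝ} {E : Set ((ι → ℝ) × (ι → ℝ))} (hE : IsCompact E)
    {A : Set (ι → ℝ)} (hA : IsCompact A) : MeasurableSet (SS p E A) := by
  have h1 : IsCompact (E ∩ {x | x.2 ∈ A}) := hE.inter_right (hA.isClosed.preimage continuous_snd)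
  have h2 := h1.image continuous_fst
  have h3 : IsClosed ((ℝ ∙ p : Submodule ℝ (ι → ℝ)) : Set (ι → ℝ)) :=
    Submodule.closed_of_finiteDimensional _
  have h4 : SS p E A = ({m | 0 ≤ m ⬝ᵥ p} ∩ {m | m ⬝ᵥ p < p ⬝ᵥ p}) ∩
      (((ℝ ∙ p : Submodule ℝ (ι → ℝ)) : Set (ι → ℝ)) + Prod.fst '' (E ∩ {x | x.2 ∈ A})) := by
    ext y
    constructor
    · rintro ⟨h5, t, n, hn, h6⟩
      refine ⟨h5, (-t) • p, Submodule.mem_span_singleton.2 ⟨-t, rfl⟩, y + t • p,
        ⟨(y + t • p, n), ⟨h6, hn⟩, rfl⟩, ?_⟩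
      show (-t) • p + (y + t • p) = y
      rw [neg_smul]
      abel
    · rintro ⟨h5, w, hw, z, ⟨x, ⟨hx, h6⟩, rfl⟩, rfl⟩
      obtain ⟨t, rfl⟩ := Submodule.mem_span_singleton.1 hw
      refine ⟨h5, -t, x.2, h6, ?_⟩
      have : t • p + x.1 + (-t) • p = x.1 := by rw [neg_smul]; abel
      show (t • p + x.1 + (-t) • p, x.2) ∈ E
      rw [this]
      exact hx
  rw [h4]
  refine MeasurableSet.inter (MeasurableSet.inter ?_ ?_)
    (h3.add_right_of_isCompact h2).measurableSet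
  · exact measurableSet_le measurable_const (Pool.Agent.H61.OT.continuous_dot p).measurable
  · exact measurableSet_lt (Pool.Agent.H61.OT.continuous_dot p).measurable measurable_const

private theorem SS_inter {p : ι → ℝ} {E : Set ((ι → ℝ) × (ι → ℝ))} {A B : Set (ι → ℝ)} {b : ℝ}
    (hA : ∀ n ∈ A, n ⬝ᵥ p = b) (hB : ∀ n ∈ B, n ⬝ᵥ p = b) (hAB : Disjoint A B) :
    SS p E A ∩ SS p E B ⊆ {y : ι → ℝ | ∃ x ∈ E ∩ {x | x.2 ⬝ᵥ p = b},
      ∃ x' ∈ E ∩ {x | x.2 ⬝ᵥ p = b}, ∃ t s : ℝ,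
        y = x.1 + t • p ∧ y = x'.1 + s • p ∧ x.2 ≠ x'.2} := by
  rintro m ⟨⟨-, t, n, hn, h1⟩, ⟨-, s, n', hn', h2⟩⟩
  refine ⟨(m + t • p, n), ⟨h1, hA n hn⟩, (m + s • p, n'), ⟨h2, hB n' hn'⟩, -t, -s, ?_, ?_, ?_⟩
  · show m = m + t • p + (-t) • p
    rw [neg_smul]; abel
  · show m = m + s • p + (-s) • p
    rw [neg_smul]; abel
  · intro h
    have h' : n = n' := h
    exact Set.disjoint_left.1 hAB hn (h' ▸ hn')

/-- Compact exhaustion of the open facet. -/
private def FF (P : Set (ι → ℝ)) (h : (ι → ℝ) → ℝ) (p : ι → ℝ) (k : ℕ) : Set (ι → ℝ) :=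
  {n | n ⬝ᵥ p = h p ∧ ∀ p' ∈ P, p' ≠ p → n ⬝ᵥ p' ≤ h p' - 1 / ((k : ℝ) + 1)}

private theorem FF_subset {P : Set (ι → ℝ)} {h : (ι → ℝ) → ℝ} {p : ι → ℝ} (k : ℕ) :
    FF P h p k ⊆ face P h p := by
  rintro n ⟨h1, h2⟩
  refine ⟨h1, fun p' hp' hne => ?_⟩
  have := h2 p' hp' hne
  have h3 : 0 < 1 / ((k : ℝ) + 1) := by positivity
  linarith

private theorem isCompact_FF {P : Set (ι → ℝ)} {h : (ι → ℝ) → ℝ} (HP : Good P h) {p : ι → ℝ}
    (k : ℕ) : IsCompact (FF P h p k) := by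
  refine (isCompact_poly HP.bdd).of_isClosed_subset ?_ ((FF_subset k).trans face_subset_poly)
  have h1 : FF P h p k = {n | n ⬝ᵥ p = h p} ∩
      ⋂ p' ∈ P \ {p}, {n | n ⬝ᵥ p' ≤ h p' - 1 / ((k : ℝ) + 1)} := by
    ext n
    simp only [FF, Set.mem_ofPred_eq, Set.mem_inter_iff, Set.mem_iInter, Set.mem_sdiff,
      Set.mem_singleton_iff]
    constructor
    · rintro ⟨h1, h3⟩
      exact ⟨h1, fun q' hq' => h3 q' hq'.1 hq'.2⟩
    · rintro ⟨h1, h3⟩
      exact ⟨h1, fun q' hq' hne => h3 q' ⟨hq', hne⟩⟩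
  rw [h1]
  refine IsClosed.inter ?_ (isClosed_biInter fun p' _ => ?_)
  · exact isClosed_eq (Pool.Agent.H61.OT.continuous_dot p) continuous_const
  · exact isClosed_le (Pool.Agent.H61.OT.continuous_dot p') continuous_const

private theorem FF_mono {P : Set (ι → ℝ)} {h : (ι → ℝ) → ℝ} {p : ι → ℝ} :
    Monotone (FF P h p) := by
  intro k l hkl n hn
  refine ⟨hn.1, fun p' hp' hne => (hn.2 p' hp' hne).trans ?_⟩
  have h1 : 1 / ((l : ℝ) + 1) ≤ 1 / ((k : ℝ) + 1) := by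
    apply one_div_le_one_div_of_le (by positivity)
    have : (k : ℝ) ≤ l := by exact_mod_cast hkl
    linarith
  linarith

private theorem iUnion_FF {P : Set (ι → ℝ)} {h : (ι → ℝ) → ℝ} (hP : P.Finite) {p : ι → ℝ} :
    ⋃ k, FF P h p k = face P h p := by
  refine Set.Subset.antisymm (Set.iUnion_subset fun k => FF_subset k) ?_
  rintro n ⟨h1, h2⟩
  have h3 : ∀ᶠ k : ℕ in Filter.atTop, ∀ p' ∈ P, p' ≠ p → n ⬝ᵥ p' ≤ h p' - 1 / ((k : ℝ) + 1) := by
    refine (Filter.eventually_all_finite hP).2 fun p' hp' => ?_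
    by_cases hne : p' = p
    · exact Filter.Eventually.of_forall fun k hk => absurd hne hk
    · have h4 : 0 < h p' - n ⬝ᵥ p' := sub_pos.2 (h2 p' hp' hne)
      have h5 := (tendsto_one_div_add_atTop_nhds_zero_nat (𝕜 := ℝ)).eventually (gt_mem_nhds h4)
      filter_upwards [h5] with k hk _
      linarith
  obtain ⟨k, hk⟩ := h3.exists
  exact Set.mem_iUnion.2 ⟨k, h1, hk⟩

theorem mongeAmpere_borel_mu (HQ : Good Q g) (HP : Good P h)
    (H : IsConj (poly Q g) (poly P h) u v) {p : ι → ℝ} (hp : p ∈ P) {c : ℝ≥0∞} (hc : c ≠ ∞)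
    {ρ : Measure (ι → ℝ)} (hfin : ρ Set.univ ≠ ∞)
    (hA : ∀ A : Set (ι → ℝ), IsCompact A → A ⊆ face P h p →
      mongeAmpere p u A = c * ρ A)
    {A : Set (ι → ℝ)} (hAm : MeasurableSet A) (hAf : A ⊆ face P h p) :
    mongeAmpere p u A = c * ρ A := by
  rcases eq_or_ne p 0 with hp0 | hp0
  · have h1 : face P h p = ∅ := by
      refine Set.eq_empty_of_forall_notMem fun n hn => ?_
      have h2 := hn.1
      have h3 := HP.pos p hp
      rw [← h2, hp0, dotProduct_zero] at h3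
      exact lt_irrefl _ h3
    have h2 : A = ∅ := Set.subset_empty_iff.1 (h1 ▸ hAf)
    exact hA A (h2 ▸ isCompact_empty) hAf
  set E := contact (poly Q g) (poly P h) u v with hE
  have hEc : IsCompact E := H.isCompact_contact (isCompact_poly HQ.bdd) (isCompact_poly HP.bdd)
  have hEm : Mono E := H.mono_contact
  have hS : ∀ B : Set (ι → ℝ), B ⊆ face P h p → mongeAmpere p u B = volume (SS p E B) := by
    intro B hB
    unfold mongeAmpere SS
    congr 1
    ext m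
    refine and_congr_right fun _ => ⟨?_, ?_⟩
    · rintro ⟨n, hn, h1⟩
      obtain ⟨t, ht⟩ := (isSubgrad_iff H hp0 (face_subset_poly (hB hn))).1 h1
      exact ⟨t, n, hn, ht⟩
    · rintro ⟨t, n, hn, ht⟩
      exact ⟨n, hn, (isSubgrad_iff H hp0 (face_subset_poly (hB hn))).2 ⟨t, ht⟩⟩
  set F := face P h p with hF
  have hFm : MeasurableSet F := measurableSet_face HP.fin p
  have hFp : ∀ n ∈ F, n ⬝ᵥ p = h p := fun n hn => hn.1
  obtain ⟨-, hN0⟩ := multi_null (Γ := E ∩ {x | x.2 ⬝ᵥ p = h p}) (p := p) (b := h p)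
    (hEc.inter_right (isClosed_eq ((Pool.Agent.H61.OT.continuous_dot p).comp continuous_snd)
      continuous_const)) (fun x hx y hy => hEm x hx.1 y hy.1) fun x hx => hx.2
  set N : Set (ι → ℝ) := {y : ι → ℝ | ∃ x ∈ E ∩ {x | x.2 ⬝ᵥ p = h p},
      ∃ x' ∈ E ∩ {x | x.2 ⬝ᵥ p = h p}, ∃ t s : ℝ,
        y = x.1 + t • p ∧ y = x'.1 + s • p ∧ x.2 ≠ x'.2} with hN
  -- the mass of the facet
  have hSF : volume (SS p E F) = c * ρ F := by
    have h1 : F = ⋃ k, FF P h p k := (iUnion_FF HP.fin).symm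
    have h2 : Monotone fun k => SS p E (FF P h p k) := fun k l hkl => SS_mono (FF_mono hkl)
    rw [h1, SS_iUnion, h2.measure_iUnion, (FF_mono (P := P) (h := h) (p := p)).measure_iUnion,
      ENNReal.mul_iSup]
    refine iSup_congr fun k => ?_
    rw [← hS _ (FF_subset k), hA _ (isCompact_FF HP k) (FF_subset k)]
  have hfinB : ∀ B : Set (ι → ℝ), ρ B ≠ ∞ := fun B =>
    ne_top_of_le_ne_top hfin (measure_mono (Set.subset_univ B))
  have : IsFiniteMeasure (ρ) := ⟨lt_top_iff_ne_top.2 hfin⟩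
  rw [hS A hAf]
  refine le_antisymm ?_ ?_
  · -- upper bound
    have hAtop : volume (SS p E A) ≠ ∞ := by
      refine ne_top_of_le_ne_top ?_ (measure_mono (SS_mono hAf))
      rw [hSF]
      exact ENNReal.mul_ne_top hc (hfinB _)
    have h1 : c * ρ (F \ A) ≤ c * ρ F - volume (SS p E A) := by
      rw [(hFm.diff hAm).measure_eq_iSup_isCompact_of_ne_top (hfinB _)]
      simp only [ENNReal.mul_iSup]
      refine iSup_le fun C => iSup_le fun hC => iSup_le fun hCc => ?_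
      refine ENNReal.le_sub_of_add_le_left hAtop ?_
      have hCF : C ⊆ F := hC.trans Set.sdiff_subset
      rw [← hA C hCc hCF, hS C hCF, ← hSF]
      have hCm : MeasurableSet (SS p E C) := measurableSet_SS hEc hCc
      have hdis : Disjoint A C := by
        rw [Set.disjoint_left]
        intro n hn hn'
        exact (hC hn').2 hn
      have h3 := SS_inter (E := E) (fun n hn => hFp n (hAf hn)) (fun n hn => hFp n (hCF hn)) hdis
      rw [← measure_sdiff_null (s := SS p E A) hN0]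
      have h4 : Disjoint (SS p E A \ N) (SS p E C) := by
        rw [Set.disjoint_left]
        rintro m ⟨hm1, hm2⟩ hm3
        exact hm2 (h3 ⟨hm1, hm3⟩)
      rw [← measure_union h4 hCm]
      exact measure_mono (Set.union_subset (Set.sdiff_subset.trans (SS_mono hAf)) (SS_mono hCF))
    have h2 : volume (SS p E A) ≤ c * ρ F := by
      rw [← hSF]
      exact measure_mono (SS_mono hAf)
    have h3 : ρ F = ρ A + ρ (F \ A) := by
      rw [← measure_inter_add_sdiff F hAm, Set.inter_eq_self_of_subset_right hAf]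
    have h4 : volume (SS p E A) + c * ρ (F \ A) ≤ c * ρ F := by
      calc volume (SS p E A) + c * ρ (F \ A)
          ≤ volume (SS p E A) + (c * ρ F - volume (SS p E A)) := by gcongr
        _ = c * ρ F := add_tsub_cancel_of_le h2
    rw [h3, mul_add] at h4
    exact (ENNReal.add_le_add_iff_right (ENNReal.mul_ne_top hc (hfinB _))).1 h4
  · -- lower bound
    rw [hAm.measure_eq_iSup_isCompact_of_ne_top (hfinB _)]
    simp only [ENNReal.mul_iSup]
    refine iSup_le fun C => iSup_le fun hC => iSup_le fun hCc => ?_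
    rw [← hA C hCc (hC.trans hAf), hS C (hC.trans hAf)]
    exact measure_mono (SS_mono hC)


theorem mongeAmpere_stable_mu [Nonempty ι] (HQ : Good Q g) (HP : Good P h) {u v : (ι → ℝ) → ℝ}
    (H : IsConj (poly Q g) (poly P h) u v) {μ : Measure (ι → ℝ)} [IsProbabilityMeasure μ]
    {γ : Measure ((ι → ℝ) × (ι → ℝ))}
    (hγ : IsPlan (bdProb Q g) μ γ) (hst : ∀ᵐ x ∂γ, x ∈ stab P Q g h)
    (hγE : ∀ᵐ x ∂γ, x ∈ contact (poly Q g) (poly P h) u v) {p : ι → ℝ} (hp : p ∈ P)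
    {A : Set (ι → ℝ)} (hAm : MeasurableSet A) (hAf : A ⊆ face P h p) :
    mongeAmpere p u A = ENNReal.ofReal (Fintype.card ι) * bd Q g Set.univ * μ A := by
  have hQt := bd_univ_ne_top HQ.fin HQ.pos HQ.bdd
  refine mongeAmpere_borel_mu HQ HP H hp
    (ENNReal.mul_ne_top ENNReal.ofReal_ne_top hQt) (measure_ne_top μ _) ?_ hAm hAf
  intro A hA hAf
  by_cases hp0 : p = 0
  · have hA0 : A = ∅ := by
      rw [Set.eq_empty_iff_forall_notMem]
      intro n hn
      have h1 := (hAf hn).1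
      rw [hp0, dotProduct_zero] at h1
      have h2 := HP.pos p hp
      rw [hp0] at h2
      linarith
    subst hA0
    unfold mongeAmpere
    simp
  · have hE := H.isCompact_contact (isCompact_poly HQ.bdd) (isCompact_poly HP.bdd)
    obtain ⟨h1, h2, h3⟩ := mass_eq_mu HQ hγ hst hE contact_subset H.mono_contact hγE hp hA hAf
    set D := pre (contact (poly Q g) (poly P h) u v) (top Q g p) A with hD
    have h4 := (volume_slab_top HQ (p := p) h1 (fun m hm => hm.1) (fun q hq hpq => by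
      rw [bd_eq_mul HQ, h3 q hq hpq, mul_zero])).2
    rw [mongeAmpere_eq HQ H hp hp0 hAf, ← hD, h4, bd_eq_mul HQ D, h2, mul_assoc]

/-- The Monge-Ampere equation has a solution if there is a stable optimal plan. -/
theorem exists_solution_mu [Nonempty ι] (HQ : Good Q g) (HP : Good P h) {μ : Measure (ι → ℝ)}
    [IsProbabilityMeasure μ] (hμ : ∀ᵐ n ∂μ, ∃ p ∈ P, n ∈ face P h p)
    {γ : Measure ((ι → ℝ) × (ι → ℝ))} (hγ : IsOptimal (bdProb Q g) μ γ)
    (hst : ∀ᵐ x ∂γ, x ∈ stab P Q g h) :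
    ∃ u v : (ι → ℝ) → ℝ, IsConj (poly Q g) (poly P h) u v ∧
      ∀ p ∈ P, ∀ A, MeasurableSet A → A ⊆ face P h p →
        mongeAmpere p u A = ENNReal.ofReal (Fintype.card ι) * bd Q g Set.univ * μ A := by
  have hprobν := isProbabilityMeasure_bdProb HQ.fin HQ.pos HQ.prop HQ.bdd
  obtain ⟨Γ, hΓ, hne, hΓs, hΓae, hcyc⟩ := exists_cyc_carrier (isCompact_poly HQ.bdd)
    (isCompact_poly HP.bdd)
    ((bdProb_ae HQ.fin HQ.pos).mono fun m ⟨q, _, hm⟩ => face_subset_poly hm)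
    (hμ.mono fun n ⟨p, _, hn⟩ => face_subset_poly hn) hγ
  obtain ⟨w, hw⟩ := rockafellar hcyc hne
    (HQ.bdd.subset (by rintro _ ⟨x, hx, rfl⟩; exact (hΓs hx).1))
  obtain ⟨u, v, H, hΓE⟩ := exists_conj (isCompact_poly HQ.bdd) (isCompact_poly HP.bdd) hne hΓs hw
  have hγE : ∀ᵐ x ∂γ, x ∈ contact (poly Q g) (poly P h) u v := hΓae.mono fun x hx => hΓE hx
  exact ⟨u, v, H, fun p hp A hA hAf =>
    mongeAmpere_stable_mu HQ HP H hγ.1 hst hγE hp hA hAf⟩

/-- Both equations for the normalised boundary measures. -/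
theorem exists_solution_both [Nonempty ι] (HQ : Good Q g) (HP : Good P h)
    {γ : Measure ((ι → ℝ) × (ι → ℝ))} (hγ : IsOptimal (bdProb Q g) (bdProb P h) γ)
    (hst : ∀ᵐ x ∂γ, x ∈ stab P Q g h) :
    ∃ u v : (ι → ℝ) → ℝ, IsConj (poly Q g) (poly P h) u v ∧
      (∀ p ∈ P, ∀ A, MeasurableSet A → A ⊆ face P h p →
        mongeAmpere p u A = ENNReal.ofReal (Fintype.card ι) * bd Q g Set.univ * bdProb P h A) ∧
      ∀ q ∈ Q, ∀ A, MeasurableSet A → A ⊆ face Q g q →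
        mongeAmpere q v A = ENNReal.ofReal (Fintype.card ι) * bd P h Set.univ * bdProb Q g A := by
  have key : ∀ {P : Set (ι → ℝ)} {h : (ι → ℝ) → ℝ}, Good P h → ∀ p ∈ P, ∀ A : Set (ι → ℝ),
      MeasurableSet A → A ⊆ face P h p → ∀ c b : ℝ≥0∞,
      c * (b / bd P h Set.univ) * area P h p A = c * b * bdProb P h A := by
    intro P h HP p hp A hA hAf c b
    unfold bdProb
    rw [Measure.smul_apply, smul_eq_mul, bd_apply_face HP.fin HP.pos hp hA hAf, div_eq_mul_inv]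
    ring
  obtain ⟨u, v, H, hu, hv⟩ := exists_solution HQ HP hγ hst
  exact ⟨u, v, H, fun p hp A hA hAf => (hu p hp A hA hAf).trans (key HP p hp A hA hAf _ _),
    fun q hq A hA hAf => (hv q hq A hA hAf).trans (key HQ q hq A hA hAf _ _)⟩

end Pool.Agent.H15.MA
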