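import Pool.Agent.H61.OT.Stab

/-!
# Irreducible finite reflection groups: vectors in a common closed chamber pair positively
-/

open Matrix


namespace Pool.Agent.H61.OT.Weyl

variable {ι : Type} [Fintype ι]

/-- The sum of the rank one maps of the roots. -/
noncomputable def T {R : Set ((ι → ℝ) × (ι → ℝ))} (hR : R.Finite) (m : ι → ℝ) : ι → ℝ :=
  ∑ r ∈ hR.toFinset, (m ⬝ᵥ r.2) • r.1

/-- The action of a reflection on the pairs of a root and a coroot. -/
def act (s r : (ι → ℝ) × (ι → ℝ)) : (ι → ℝ) × (ι → ℝ) := (refl s.1 s.2 r.1, refl s.2 s.1 r.2)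

theorem act_act {s : (ι → ℝ) × (ι → ℝ)} (h : s.1 ⬝ᵥ s.2 = 2) (r : (ι → ℝ) × (ι → ℝ)) :
    act s (act s r) = r := by
  have h' : s.2 ⬝ᵥ s.1 = 2 := by rw [dotProduct_comm]; exact h
  unfold act
  simp only [refl_refl h, refl_refl h']

theorem T_add {R : Set ((ι → ℝ) × (ι → ℝ))} (hR : R.Finite) (m n : ι → ℝ) :
    T hR (m + n) = T hR m + T hR n := by
  simp only [T, add_dotProduct, add_smul, Finset.sum_add_distrib]

theorem T_smul {R : Set ((ι → ℝ) × (ι → ℝ))} (hR : R.Finite) (c : ℝ) (m : ι → ℝ) :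
    T hR (c • m) = c • T hR m := by
  simp only [T, smul_dotProduct, smul_eq_mul, mul_smul, Finset.smul_sum]

theorem T_dot {R : Set ((ι → ℝ) × (ι → ℝ))} (hR : R.Finite) (m n : ι → ℝ) :
    T hR m ⬝ᵥ n = ∑ r ∈ hR.toFinset, (m ⬝ᵥ r.2) * (n ⬝ᵥ r.1) := by
  rw [T, sum_dotProduct]
  refine Finset.sum_congr rfl fun r _ => ?_
  rw [smul_dotProduct, smul_eq_mul, dotProduct_comm r.1 n]

/-- `T` commutes with the reflections. -/
theorem refl_T {R : Set ((ι → ℝ) × (ι → ℝ))} (hR : R.Finite)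
    (hc : ∀ s ∈ R, ∀ r ∈ R, act s r ∈ R) {s : (ι → ℝ) × (ι → ℝ)} (hs : s ∈ R)
    (h2 : s.1 ⬝ᵥ s.2 = 2) (m : ι → ℝ) : refl s.1 s.2 (T hR m) = T hR (refl s.1 s.2 m) := by
  have h1 : refl s.1 s.2 (T hR m) = ∑ r ∈ hR.toFinset, (m ⬝ᵥ r.2) • refl s.1 s.2 r.1 := by
    simp only [refl, T, sum_dotProduct, smul_dotProduct, smul_sub, Finset.sum_sub_distrib,
      Finset.sum_smul, smul_eq_mul, mul_smul]
  rw [h1, T]
  refine Finset.sum_nbij' (act s) (act s) (fun r hr => ?_) (fun r hr => ?_) (fun r _ => ?_)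
    (fun r _ => ?_) (fun r _ => ?_)
  · exact hR.mem_toFinset.2 (hc s hs r (hR.mem_toFinset.1 hr))
  · exact hR.mem_toFinset.2 (hc s hs r (hR.mem_toFinset.1 hr))
  · exact act_act h2 r
  · exact act_act h2 r
  · have h3 : refl s.1 s.2 m ⬝ᵥ (act s r).2 = m ⬝ᵥ r.2 := by
      have h4 : s.2 ⬝ᵥ s.1 = 2 := by rw [dotProduct_comm]; exact h2
      simp only [act, refl, sub_dotProduct, dotProduct_sub, smul_dotProduct, dotProduct_smul,
        smul_eq_mul, h2]
      rw [dotProduct_comm s.1 r.2]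
      ring
    rw [h3]
    rfl

/-- No subspace is invariant under the reflections, except the two trivial ones. -/
def Irred (R : Set ((ι → ℝ) × (ι → ℝ))) : Prop :=
  ∀ S : Submodule ℝ (ι → ℝ), (∀ r ∈ R, ∀ m ∈ S, refl r.1 r.2 m ∈ S) → S = ⊥ ∨ S = ⊤

theorem root_ne_zero {r : (ι → ℝ) × (ι → ℝ)} (h : r.1 ⬝ᵥ r.2 = 2) : r.1 ≠ 0 := by
  intro h0
  rw [h0, zero_dotProduct] at h
  norm_num at h

/-- `T` is a positive multiple of the identity. -/
theorem T_eq [Nonempty ι] {R : Set ((ι → ℝ) × (ι → ℝ))} (hR : R.Finite) (hne : R.Nonempty)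
    (h2 : ∀ r ∈ R, r.1 ⬝ᵥ r.2 = 2) (hc : ∀ s ∈ R, ∀ r ∈ R, act s r ∈ R) (hI : Irred R) :
    ∃ c : ℝ, 0 < c ∧ ∀ m, T hR m = c • m := by
  obtain ⟨s, hs⟩ := hne
  have e1 := refl_T hR hc hs (h2 s hs) s.1
  have e2 : refl s.1 s.2 s.1 = (-1 : ℝ) • s.1 := by
    unfold refl
    rw [h2 s hs, two_smul, neg_one_smul]
    abel
  rw [e2, T_smul] at e1
  have e3 : T hR s.1 = ((T hR s.1 ⬝ᵥ s.2) / 2) • s.1 := by
    have e4 : T hR s.1 - (T hR s.1 ⬝ᵥ s.2) • s.1 = (-1 : ℝ) • T hR s.1 := e1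
    funext i
    have e5 := congrFun e4 i
    simp only [Pi.sub_apply, Pi.smul_apply, smul_eq_mul] at e5 ⊢
    linarith
  set c : ℝ := (T hR s.1 ⬝ᵥ s.2) / 2 with hcdef
  let S : Submodule ℝ (ι → ℝ) :=
    { carrier := {m | T hR m = c • m}
      add_mem' := fun {m n} hm hn => by
        have hm' : T hR m = c • m := hm
        have hn' : T hR n = c • n := hn
        show T hR (m + n) = c • (m + n)
        rw [T_add, hm', hn', smul_add]
      zero_mem' := by
        show T hR 0 = c • 0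
        simp [T]
      smul_mem' := fun x m hm => by
        have hm' : T hR m = c • m := hm
        show T hR (x • m) = c • (x • m)
        rw [T_smul, hm', smul_comm] }
  have hS : S = ⊥ ∨ S = ⊤ := by
    refine hI S fun r hr m hm => ?_
    have hm' : T hR m = c • m := hm
    show T hR (refl r.1 r.2 m) = c • refl r.1 r.2 m
    rw [← refl_T hR hc hr (h2 r hr) m, hm']
    unfold refl
    rw [smul_dotProduct, smul_sub, smul_smul, smul_eq_mul]
  have htop : S = ⊤ := by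
    rcases hS with h | h
    · exfalso
      have h3 : s.1 ∈ S := e3
      rw [h] at h3
      exact root_ne_zero (h2 s hs) ((Submodule.mem_bot ℝ).1 h3)
    · exact h
  have hall : ∀ m, T hR m = c • m := fun m => by
    have h3 : m ∈ S := by rw [htop]; exact Submodule.mem_top
    exact h3
  refine ⟨c, ?_, hall⟩
  classical
  have t1 : ∑ i : ι, T hR (Pi.single i 1) i = 2 * (hR.toFinset.card : ℝ) := by
    have t2 : ∀ i : ι, T hR (Pi.single i 1) i = ∑ r ∈ hR.toFinset, r.1 i * r.2 i := by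
      intro i
      simp only [T, Finset.sum_apply, Pi.smul_apply, smul_eq_mul, single_one_dotProduct]
      exact Finset.sum_congr rfl fun r _ => mul_comm _ _
    rw [Finset.sum_congr rfl fun i _ => t2 i, Finset.sum_comm]
    have t3 : ∀ r ∈ hR.toFinset, ∑ i, r.1 i * r.2 i = 2 := fun r hr =>
      h2 r (hR.mem_toFinset.1 hr)
    rw [Finset.sum_congr rfl t3, Finset.sum_const, nsmul_eq_mul, mul_comm]
  have t4 : ∑ i : ι, T hR (Pi.single i 1) i = c * (Fintype.card ι : ℝ) := by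
    have t5 : ∀ i : ι, T hR (Pi.single i 1) i = c := by
      intro i
      rw [hall, Pi.smul_apply, Pi.single_eq_same, smul_eq_mul, mul_one]
    rw [Finset.sum_congr rfl fun i _ => t5 i, Finset.sum_const, nsmul_eq_mul, mul_comm,
      Finset.card_univ]
  have t6 : 0 < (hR.toFinset.card : ℝ) := by
    exact_mod_cast Finset.card_pos.2 ⟨s, hR.mem_toFinset.2 hs⟩
  have t7 : 0 < (Fintype.card ι : ℝ) := by exact_mod_cast Fintype.card_pos
  by_contra h
  have h' : c ≤ 0 := not_lt.1 h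
  nlinarith

/-- Vectors of a common closed chamber pair positively. -/
theorem dot_pos [Nonempty ι] {R : Set ((ι → ℝ) × (ι → ℝ))} (hR : R.Finite) (hne : R.Nonempty)
    (h2 : ∀ r ∈ R, r.1 ⬝ᵥ r.2 = 2) (hc : ∀ s ∈ R, ∀ r ∈ R, act s r ∈ R) (hI : Irred R)
    {p q : ι → ℝ} (hp : p ≠ 0) (hq : q ≠ 0) (H : ∀ r ∈ R, 0 ≤ (p ⬝ᵥ r.2) * (q ⬝ᵥ r.1)) :
    0 < p ⬝ᵥ q := by
  obtain ⟨c, hc0, hT⟩ := T_eq hR hne h2 hc hI
  have e1 : c * (p ⬝ᵥ q) = ∑ r ∈ hR.toFinset, (p ⬝ᵥ r.2) * (q ⬝ᵥ r.1) := by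
    rw [← T_dot, hT, smul_dotProduct, smul_eq_mul]
  have e2 : 0 ≤ ∑ r ∈ hR.toFinset, (p ⬝ᵥ r.2) * (q ⬝ᵥ r.1) :=
    Finset.sum_nonneg fun r hr => H r (hR.mem_toFinset.1 hr)
  have e3 : 0 ≤ p ⬝ᵥ q := by
    by_contra h
    have h' : p ⬝ᵥ q < 0 := not_le.1 h
    nlinarith
  refine lt_of_le_of_ne e3 fun h0 => ?_
  have e4 : ∀ r ∈ R, (p ⬝ᵥ r.2) * (q ⬝ᵥ r.1) = 0 := by
    have e5 : ∑ r ∈ hR.toFinset, (p ⬝ᵥ r.2) * (q ⬝ᵥ r.1) = 0 := by
      rw [← e1, ← h0, mul_zero]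
    intro r hr
    exact (Finset.sum_eq_zero_iff_of_nonneg fun r hr => H r (hR.mem_toFinset.1 hr)).1 e5 r
      (hR.mem_toFinset.2 hr)
  -- the span of the roots which see `p`
  set S : Submodule ℝ (ι → ℝ) := Submodule.span ℝ {a | ∃ r ∈ R, p ⬝ᵥ r.2 ≠ 0 ∧ a = r.1} with hSdef
  have hS : S = ⊥ ∨ S = ⊤ := by
    refine hI S fun s hs m hm => ?_
    refine Submodule.span_induction (p := fun m _ => refl s.1 s.2 m ∈ S) ?_ ?_ ?_ ?_ hm
    · rintro m ⟨r, hr, hpr, rfl⟩
      have hrS : r.1 ∈ S := Submodule.subset_span ⟨r, hr, hpr, rfl⟩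
      by_cases hps : p ⬝ᵥ s.2 = 0
      · have f1 : p ⬝ᵥ (act s r).2 = p ⬝ᵥ r.2 := by
          simp only [act, refl, dotProduct_sub, dotProduct_smul, smul_eq_mul, hps]
          ring
        have f2 : (act s r).1 ∈ S :=
          Submodule.subset_span ⟨act s r, hc s hs r hr, by rw [f1]; exact hpr, rfl⟩
        exact f2
      · have f3 : s.1 ∈ S := Submodule.subset_span ⟨s, hs, hps, rfl⟩
        exact S.sub_mem hrS (S.smul_mem _ f3)
    · unfold refl
      rw [zero_dotProduct, zero_smul, sub_zero]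
      exact S.zero_mem
    · intro x y _ _ hx hy
      have f4 : refl s.1 s.2 (x + y) = refl s.1 s.2 x + refl s.1 s.2 y := by
        unfold refl
        rw [add_dotProduct, add_smul]
        abel
      rw [f4]
      exact S.add_mem hx hy
    · intro t x _ hx
      have f5 : refl s.1 s.2 (t • x) = t • refl s.1 s.2 x := by
        unfold refl
        rw [smul_dotProduct, smul_sub, smul_smul, smul_eq_mul]
      rw [f5]
      exact S.smul_mem t hx
  rcases hS with h | h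
  · -- then `p` is killed by all roots
    have g1 : ∀ r ∈ R, p ⬝ᵥ r.2 = 0 := by
      intro r hr
      by_contra hpr
      have g2 : r.1 ∈ S := Submodule.subset_span ⟨r, hr, hpr, rfl⟩
      rw [h] at g2
      exact root_ne_zero (h2 r hr) ((Submodule.mem_bot ℝ).1 g2)
    have g3 : T hR p = 0 := by
      unfold T
      refine Finset.sum_eq_zero fun r hr => ?_
      rw [g1 r (hR.mem_toFinset.1 hr), zero_smul]
    rw [hT] at g3
    exact hp ((smul_eq_zero.1 g3).resolve_left hc0.ne')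
  · -- then `q` is orthogonal to everything
    have g1 : ∀ m ∈ S, q ⬝ᵥ m = 0 := by
      intro m hm
      refine Submodule.span_induction (p := fun m _ => q ⬝ᵥ m = 0) ?_ ?_ ?_ ?_ hm
      · rintro m ⟨r, hr, hpr, rfl⟩
        exact (mul_eq_zero.1 (e4 r hr)).resolve_left hpr
      · exact dotProduct_zero q
      · intro x y _ _ hx hy
        rw [dotProduct_add, hx, hy, add_zero]
      · intro t x _ hx
        rw [dotProduct_smul, hx, smul_zero]
    have g2 : q ⬝ᵥ q = 0 := g1 q (by rw [h]; exact Submodule.mem_top)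
    exact hq (dotProduct_self_eq_zero.1 g2)

end Pool.Agent.H61.OT.Weyl
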