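import Pool.Agent.H61.OT.Cone
import Pool.Agent.H15.SYZ.Weyl

/-!
# The bipolar theorem for finite sets, and products of dual pairs
-/

open Matrix Filter Topology

namespace Pool.Agent.H61.OT.Weyl

section bipolar

variable {ι : Type} [Fintype ι]

theorem polar_convexHull (Q : Set (ι → ℝ)) : polar (convexHull ℝ Q) = polar Q := by
  apply Set.Subset.antisymm
  · intro m hm q hq
    exact hm q (subset_convexHull ℝ Q hq)
  · intro m hm q hq
    have h1 : convexHull ℝ Q ⊆ {x | m ⬝ᵥ x ≤ 1} := by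
      refine convexHull_min (fun q hq => hm q hq) ?_
      intro x hx y hy s t hs ht hst
      show m ⬝ᵥ (s • x + t • y) ≤ 1
      rw [dotProduct_add, dotProduct_smul, dotProduct_smul, smul_eq_mul, smul_eq_mul]
      have h1 := mul_le_mul_of_nonneg_left hx hs
      have h2 := mul_le_mul_of_nonneg_left hy ht
      linarith
    exact h1 hq

theorem bipolar {Q : Set (ι → ℝ)} (hQ : Q.Finite) (h0 : (0 : ι → ℝ) ∈ convexHull ℝ Q) :
    polar (polar Q) = convexHull ℝ Q := by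
  classical
  apply Set.Subset.antisymm
  · intro x hx
    by_contra hc
    have hclosed : IsClosed (convexHull ℝ Q) := hQ.isClosed_convexHull ℝ
    obtain ⟨f, u, h1, h2⟩ := geometric_hahn_banach_closed_point (convex_convexHull ℝ _) hclosed hc
    have hu : 0 < u := by
      have := h1 0 h0
      rwa [map_zero] at this
    set n : ι → ℝ := fun y => f (Pi.single y 1) with hn
    have hf : ∀ z : ι → ℝ, f z = z ⬝ᵥ n := by
      intro z
      have h3 : z = ∑ y, z y • (Pi.single y (1 : ℝ) : ι → ℝ) := by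
        ext y
        simp [Finset.sum_apply, Pi.single_apply]
      conv_lhs => rw [h3]
      rw [map_sum]
      simp only [map_smul, smul_eq_mul]
      rfl
    have h4 : u⁻¹ • n ∈ polar Q := by
      intro q hq
      have h5 := h1 q (subset_convexHull ℝ Q hq)
      rw [hf, dotProduct_comm] at h5
      rw [smul_dotProduct, smul_eq_mul]
      have h6 : u⁻¹ * (n ⬝ᵥ q) ≤ u⁻¹ * u := mul_le_mul_of_nonneg_left h5.le (inv_nonneg.2 hu.le)
      rwa [inv_mul_cancel₀ hu.ne'] at h6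
    have h7 := hx _ h4
    rw [dotProduct_smul, smul_eq_mul, ← hf] at h7
    have h8 : u * (u⁻¹ * f x) ≤ u * 1 := mul_le_mul_of_nonneg_left h7 hu.le
    rw [mul_inv_cancel_left₀ hu.ne', mul_one] at h8
    linarith
  · refine convexHull_min ?_ (convex_polar _)
    intro q hq m hm
    rw [dotProduct_comm]
    exact hm q hq

/-- One of the two dualities implies the other one. -/
theorem dual_of_dual {P Q : Set (ι → ℝ)} (hP : P.Finite) (h0 : (0 : ι → ℝ) ∈ convexHull ℝ P)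
    (h : polar P = convexHull ℝ Q) : polar Q = convexHull ℝ P := by
  rw [← polar_convexHull Q, ← h, bipolar hP h0]

theorem zero_mem_polar (Q : Set (ι → ℝ)) : (0 : ι → ℝ) ∈ polar Q := fun q _ => by
  rw [zero_dotProduct]
  exact zero_le_one

end bipolar

section product

variable {ι κ : Type} [Fintype ι] [Fintype κ]

/-- The product of two sets. -/
def prodP (P : Set (ι → ℝ)) (P' : Set (κ → ℝ)) : Set (ι ⊕ κ → ℝ) :=
  {x | ∃ p ∈ P, ∃ p' ∈ P', x = Sum.elim p p'}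

/-- The union of two sets in complementary subspaces. -/
def sumQ (Q : Set (ι → ℝ)) (Q' : Set (κ → ℝ)) : Set (ι ⊕ κ → ℝ) :=
  {x | (∃ q ∈ Q, x = Sum.elim q (0 : κ → ℝ)) ∨ ∃ q ∈ Q', x = Sum.elim (0 : ι → ℝ) q}

/-- The union of two sets of reflections in complementary subspaces. -/
def sumR (R : Set ((ι → ℝ) × (ι → ℝ))) (R' : Set ((κ → ℝ) × (κ → ℝ))) :
    Set ((ι ⊕ κ → ℝ) × (ι ⊕ κ → ℝ)) :=
  {x | (∃ r ∈ R, x = (Sum.elim r.1 (0 : κ → ℝ), Sum.elim r.2 (0 : κ → ℝ))) ∨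
    ∃ r ∈ R', x = (Sum.elim (0 : ι → ℝ) r.1, Sum.elim (0 : ι → ℝ) r.2)}

omit [Fintype ι] [Fintype κ] in
theorem prodP_finite {P : Set (ι → ℝ)} {P' : Set (κ → ℝ)} (h : P.Finite) (h' : P'.Finite) :
    (prodP P P').Finite := by
  refine (Set.Finite.image (fun x : (ι → ℝ) × (κ → ℝ) => Sum.elim x.1 x.2) (h.prod h')).subset ?_
  rintro x ⟨p, hp, p', hp', rfl⟩
  exact ⟨(p, p'), ⟨hp, hp'⟩, rfl⟩

omit [Fintype ι] [Fintype κ] in
theorem sumQ_finite {P : Set (ι → ℝ)} {P' : Set (κ → ℝ)} (h : P.Finite) (h' : P'.Finite) :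
    (sumQ P P').Finite := by
  refine ((Set.Finite.image (fun x : ι → ℝ => (Sum.elim x 0 : ι ⊕ κ → ℝ)) h).union
    (Set.Finite.image (fun x : κ → ℝ => (Sum.elim 0 x : ι ⊕ κ → ℝ)) h')).subset ?_
  rintro x (⟨q, hq, rfl⟩ | ⟨q, hq, rfl⟩)
  · exact Or.inl ⟨q, hq, rfl⟩
  · exact Or.inr ⟨q, hq, rfl⟩

omit [Fintype ι] [Fintype κ] in
theorem sumR_finite {R : Set ((ι → ℝ) × (ι → ℝ))} {R' : Set ((κ → ℝ) × (κ → ℝ))} (h : R.Finite)
    (h' : R'.Finite) : (sumR R R').Finite := by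
  refine ((Set.Finite.image (fun r : (ι → ℝ) × (ι → ℝ) =>
    ((Sum.elim r.1 0, Sum.elim r.2 0) : (ι ⊕ κ → ℝ) × (ι ⊕ κ → ℝ))) h).union
    (Set.Finite.image (fun r : (κ → ℝ) × (κ → ℝ) =>
    ((Sum.elim 0 r.1, Sum.elim 0 r.2) : (ι ⊕ κ → ℝ) × (ι ⊕ κ → ℝ))) h')).subset ?_
  rintro x (⟨q, hq, rfl⟩ | ⟨q, hq, rfl⟩)
  · exact Or.inl ⟨q, hq, rfl⟩
  · exact Or.inr ⟨q, hq, rfl⟩

theorem dot_elim_left (x : ι ⊕ κ → ℝ) (q : ι → ℝ) :
    x ⬝ᵥ (Sum.elim q 0 : ι ⊕ κ → ℝ) = (x ∘ Sum.inl) ⬝ᵥ q := by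
  simp [dotProduct, Fintype.sum_sum_type]

theorem dot_elim_right (x : ι ⊕ κ → ℝ) (q : κ → ℝ) :
    x ⬝ᵥ (Sum.elim 0 q : ι ⊕ κ → ℝ) = (x ∘ Sum.inr) ⬝ᵥ q := by
  simp [dotProduct, Fintype.sum_sum_type]

omit [Fintype ι] [Fintype κ] in
theorem mem_conv_prodP {P : Set (ι → ℝ)} {P' : Set (κ → ℝ)} {x : ι ⊕ κ → ℝ} :
    x ∈ convexHull ℝ (prodP P P') ↔
      x ∘ Sum.inl ∈ convexHull ℝ P ∧ x ∘ Sum.inr ∈ convexHull ℝ P' := by
  set e := (LinearEquiv.sumArrowLequivProdArrow ι κ ℝ ℝ).symm with he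
  have h1 : prodP P P' = e '' (P ×ˢ P') := by
    ext y
    constructor
    · rintro ⟨p, hp, p', hp', rfl⟩
      exact ⟨(p, p'), ⟨hp, hp'⟩, rfl⟩
    · rintro ⟨⟨p, p'⟩, ⟨hp, hp'⟩, rfl⟩
      exact ⟨p, hp, p', hp', rfl⟩
  have h2 : convexHull ℝ (prodP P P') = e '' (convexHull ℝ P ×ˢ convexHull ℝ P') := by
    rw [h1, ← convexHull_prod]
    exact (LinearMap.image_convexHull e.toLinearMap _).symm
  rw [h2]
  constructor
  · rintro ⟨⟨p, p'⟩, ⟨hp, hp'⟩, rfl⟩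
    exact ⟨hp, hp'⟩
  · rintro ⟨hp, hp'⟩
    refine ⟨(x ∘ Sum.inl, x ∘ Sum.inr), ⟨hp, hp'⟩, ?_⟩
    exact Sum.elim_comp_inl_inr x

theorem polar_sumQ {P Q : Set (ι → ℝ)} {P' Q' : Set (κ → ℝ)} (h : polar Q = convexHull ℝ P)
    (h' : polar Q' = convexHull ℝ P') : polar (sumQ Q Q') = convexHull ℝ (prodP P P') := by
  ext x
  rw [mem_conv_prodP, ← h, ← h']
  constructor
  · intro hx
    refine ⟨fun q hq => ?_, fun q hq => ?_⟩
    · rw [← dot_elim_left]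
      exact hx _ (Or.inl ⟨q, hq, rfl⟩)
    · rw [← dot_elim_right]
      exact hx _ (Or.inr ⟨q, hq, rfl⟩)
  · rintro ⟨h1, h2⟩ y (⟨q, hq, rfl⟩ | ⟨q, hq, rfl⟩)
    · rw [dot_elim_left]
      exact h1 q hq
    · rw [dot_elim_right]
      exact h2 q hq

omit [Fintype ι] [Fintype κ] in
theorem zero_mem_conv_sumQ {Q : Set (ι → ℝ)} {Q' : Set (κ → ℝ)}
    (h : (0 : ι → ℝ) ∈ convexHull ℝ Q) : (0 : ι ⊕ κ → ℝ) ∈ convexHull ℝ (sumQ Q Q') := by
  let f : (ι → ℝ) →ₗ[ℝ] (ι ⊕ κ → ℝ) :=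
    { toFun := fun x => Sum.elim x 0
      map_add' := fun x y => by
        ext z
        rcases z with z | z <;> simp
      map_smul' := fun c x => by
        ext z
        rcases z with z | z <;> simp }
  have h1 : f 0 ∈ f '' convexHull ℝ Q := ⟨0, h, rfl⟩
  rw [LinearMap.image_convexHull, map_zero] at h1
  refine convexHull_mono ?_ h1
  rintro x ⟨q, hq, rfl⟩
  exact Or.inl ⟨q, hq, rfl⟩

theorem polar_prodP {P Q : Set (ι → ℝ)} {P' Q' : Set (κ → ℝ)} (hQ : Q.Finite) (hQ' : Q'.Finite)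
    (h : polar Q = convexHull ℝ P) (h' : polar Q' = convexHull ℝ P')
    (h2 : polar P = convexHull ℝ Q) :
    polar (prodP P P') = convexHull ℝ (sumQ Q Q') := by
  refine dual_of_dual (sumQ_finite hQ hQ') (zero_mem_conv_sumQ ?_) (polar_sumQ h h')
  rw [← h2]
  exact zero_mem_polar P

theorem refl_elim_left (a b p : ι → ℝ) (p' : κ → ℝ) :
    refl (Sum.elim a 0 : ι ⊕ κ → ℝ) (Sum.elim b 0) (Sum.elim p p') =
      Sum.elim (refl a b p) p' := by
  unfold refl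
  rw [dot_elim_left, Sum.elim_comp_inl]
  ext z
  rcases z with z | z <;> simp

theorem refl_elim_right (a b p' : κ → ℝ) (p : ι → ℝ) :
    refl (Sum.elim 0 a : ι ⊕ κ → ℝ) (Sum.elim 0 b) (Sum.elim p p') =
      Sum.elim p (refl a b p') := by
  unfold refl
  rw [dot_elim_right, Sum.elim_comp_inr]
  ext z
  rcases z with z | z <;> simp

theorem refl_zero' (a b : ι → ℝ) : refl a b 0 = 0 := by
  unfold refl
  rw [zero_dotProduct, zero_smul, sub_zero]

end product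

end Pool.Agent.H61.OT.Weyl
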