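import Pool.Agent.H61.OT.Fam
import Pool.Agent.H15.SYZ.Prod

/-!
# The root polytope of type A and its dual
-/

open Matrix Filter Topology

namespace Pool.Agent.H61.OT.Weyl

/-- One block of `n` coordinates. -/
abbrev B (n : ℕ) : Fin 1 → ℕ := fun _ => n

/-- The roots `e_h - e_h'`. -/
def rootP (n : ℕ) : Set (Idx (B n) → ℝ) :=
  {p | ∃ h h' : Hom (B n), h ≠ h' ∧ p = toM (B n) (Pi.single h 1 - Pi.single h' 1)}

/-- The classes of the indicator functions of the proper nonempty subsets. -/
def rootQ (n : ℕ) : Set (Idx (B n) → ℝ) :=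
  {q | ∃ S : Set (Hom (B n)), S.Nonempty ∧ Sᶜ.Nonempty ∧ q = toN (B n) (S.indicator 1)}

variable {n : ℕ}

theorem fst_eq (h h' : Hom (B n)) : h.1 = h'.1 := Subsingleton.elim _ _

theorem root_pair (h h' : Hom (B n)) (x : Hom (B n) → ℝ) :
    toM (B n) (Pi.single h 1 - Pi.single h' 1) ⬝ᵥ toN (B n) x = x h - x h' :=
  diff_pair (fst_eq h h') x

theorem rootP_finite : (rootP n).Finite := by
  refine (Set.finite_range fun x : Hom (B n) × Hom (B n) =>
    toM (B n) (Pi.single x.1 1 - Pi.single x.2 1)).subset ?_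
  rintro p ⟨h, h', _, rfl⟩
  exact ⟨(h, h'), rfl⟩

theorem rootQ_finite : (rootQ n).Finite := by
  refine (Set.finite_range fun S : Set (Hom (B n)) =>
    toN (B n) (S.indicator 1)).subset ?_
  rintro q ⟨S, _, _, rfl⟩
  exact ⟨S, rfl⟩

theorem indicator_zero_one (S : Set (Hom (B n))) (h : Hom (B n)) :
    (S.indicator 1 h : ℝ) = 0 ∨ (S.indicator 1 h : ℝ) = 1 := by
  by_cases hh : h ∈ S
  · right
    rw [Set.indicator_of_mem hh]
    rfl
  · left
    rw [Set.indicator_of_notMem hh]

theorem root_le {p q : Idx (B n) → ℝ} (hp : p ∈ rootP n) (hq : q ∈ rootQ n) : p ⬝ᵥ q ≤ 1 := by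
  obtain ⟨h, h', _, rfl⟩ := hp
  obtain ⟨S, _, _, rfl⟩ := hq
  rw [root_pair]
  rcases indicator_zero_one S h with h1 | h1 <;> rcases indicator_zero_one S h' with h2 | h2 <;>
    rw [h1, h2] <;> norm_num

/-- The origin is in the convex hull of the indicators. -/
theorem zero_mem_rootQ (hn : 1 ≤ n) : (0 : Idx (B n) → ℝ) ∈ convexHull ℝ (rootQ n) := by
  classical
  set h : Hom (B n) := ⟨0, none⟩
  set h' : Hom (B n) := ⟨0, some ⟨0, hn⟩⟩
  have hne : h' ≠ h := by
    intro e
    have e1 := eq_of_heq (Sigma.mk.inj_iff.1 e).2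
    exact absurd e1 (by simp)
  have h1 : toN (B n) (({h} : Set (Hom (B n))).indicator 1) ∈ rootQ n :=
    ⟨{h}, ⟨h, rfl⟩, ⟨h', hne⟩, rfl⟩
  have h2 : toN (B n) ((({h} : Set (Hom (B n)))ᶜ).indicator 1) ∈ rootQ n :=
    ⟨{h}ᶜ, ⟨h', hne⟩, by rw [compl_compl]; exact ⟨h, rfl⟩, rfl⟩
  have h3 := (convex_convexHull ℝ (rootQ n)) (subset_convexHull ℝ _ h1)
    (subset_convexHull ℝ _ h2) (a := 1 / 2) (b := 1 / 2) (by norm_num) (by norm_num) (by norm_num)
  convert h3 using 1
  ext y
  have h4 : ∀ z : Hom (B n), (({h} : Set (Hom (B n))).indicator (1 : Hom (B n) → ℝ) z) +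
      (({h} : Set (Hom (B n)))ᶜ).indicator (1 : Hom (B n) → ℝ) z = 1 := fun z => by
    have := congrFun (Set.indicator_self_add_compl ({h} : Set (Hom (B n)))
      (1 : Hom (B n) → ℝ)) z
    simpa using this
  simp only [Pi.zero_apply, Pi.add_apply, Pi.smul_apply, smul_eq_mul, toN]
  have h5 := h4 ⟨y.1, some y.2⟩
  have h6 := h4 ⟨y.1, none⟩
  linarith

/-- The dual of the root polytope. -/
theorem root_dualP (hn : 1 ≤ n) : polar (rootP n) = convexHull ℝ (rootQ n) := by
  classical
  apply Set.Subset.antisymm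
  · intro x hx
    -- homogeneous coordinates
    set y : Hom (B n) → ℝ := fun h => match h with
      | ⟨_, none⟩ => 0
      | ⟨i, some j⟩ => x ⟨i, j⟩ with hy
    have hyx : toN (B n) y = x := by
      ext ⟨i, j⟩
      simp [toN, hy]
    have hdiff : ∀ h h', y h - y h' ≤ 1 := by
      intro h h'
      by_cases hh : h = h'
      · rw [hh, sub_self]
        norm_num
      · have h1 := hx _ ⟨h, h', hh, rfl⟩
        rw [← hyx, dotProduct_comm, root_pair] at h1
        exact h1
    obtain ⟨g, hg⟩ := Finite.exists_min y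
    set z : Hom (B n) → ℝ := fun h => y h - y g with hz
    have hz0 : ∀ h, z h ∈ Set.Icc (0 : ℝ) 1 := fun h =>
      ⟨sub_nonneg.2 (hg h), hdiff h g⟩
    have hzx : toN (B n) z = x := by
      rw [← hyx]
      ext ⟨i, j⟩
      simp only [toN, hz]
      ring
    have h1 : z ∈ convexHull ℝ (Set.pi Set.univ fun _ : Hom (B n) => ({0, 1} : Set ℝ)) := by
      rw [convexHull_pi]
      intro h _
      rw [convexHull_pair, segment_eq_Icc zero_le_one]
      exact hz0 h
    let f : (Hom (B n) → ℝ) →ₗ[ℝ] (Idx (B n) → ℝ) :=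
      { toFun := toN (B n)
        map_add' := fun u v => by
          ext w
          simp only [toN, Pi.add_apply]
          ring
        map_smul' := fun c u => by
          ext w
          simp only [toN, Pi.smul_apply, smul_eq_mul, RingHom.id_apply]
          ring }
    have h2 : f z ∈ f '' convexHull ℝ (Set.pi Set.univ fun _ : Hom (B n) => ({0, 1} : Set ℝ)) :=
      ⟨z, h1, rfl⟩
    rw [LinearMap.image_convexHull] at h2
    have h3 : f '' (Set.pi Set.univ fun _ : Hom (B n) => ({0, 1} : Set ℝ)) ⊆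
        convexHull ℝ (rootQ n) := by
      rintro _ ⟨w, hw, rfl⟩
      set S : Set (Hom (B n)) := {h | w h = 1} with hS
      have hwS : w = S.indicator 1 := by
        ext h
        have hwh : w h = 0 ∨ w h = 1 := hw h (Set.mem_univ h)
        rcases hwh with h4 | h4
        · rw [h4, Set.indicator_of_notMem]
          intro h5
          have h6 : w h = 1 := h5
          rw [h4] at h6
          exact zero_ne_one h6
        · have h5 : h ∈ S := h4
          rw [h4, Set.indicator_of_mem h5]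
          rfl
      by_cases h4 : S.Nonempty
      · by_cases h5 : Sᶜ.Nonempty
        · refine subset_convexHull ℝ _ ⟨S, h4, h5, ?_⟩
          show toN (B n) w = _
          rw [hwS]
        · have h6 : f w = 0 := by
            show toN (B n) w = 0
            have h7 : ∀ h, w h = 1 := fun h => by
              by_contra h8
              exact h5 ⟨h, h8⟩
            ext u
            simp only [toN, h7, sub_self, Pi.zero_apply]
          rw [h6]
          exact zero_mem_rootQ hn
      · have h6 : f w = 0 := by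
          show toN (B n) w = 0
          have h7 : ∀ h, w h = 0 := fun h => by
            rcases hw h (Set.mem_univ h) with h8 | h8
            · exact h8
            · exact absurd ⟨h, h8⟩ h4
          ext u
          simp only [toN, h7, sub_self, Pi.zero_apply]
        rw [h6]
        exact zero_mem_rootQ hn
    have h4 := convexHull_min h3 (convex_convexHull ℝ (rootQ n)) h2
    have h5 : f z = x := hzx
    rw [h5] at h4
    exact h4
  · refine convexHull_min ?_ (convex_polar _)
    intro q hq p hp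
    rw [dotProduct_comm]
    exact root_le hp hq

theorem zero_mem_rootP (hn : 1 ≤ n) : (0 : Idx (B n) → ℝ) ∈ convexHull ℝ (rootP n) := by
  classical
  set h : Hom (B n) := ⟨0, none⟩
  set h' : Hom (B n) := ⟨0, some ⟨0, hn⟩⟩
  have hne : h' ≠ h := by
    intro e
    have e1 := eq_of_heq (Sigma.mk.inj_iff.1 e).2
    exact absurd e1 (by simp)
  have h1 : toM (B n) (Pi.single h 1 - Pi.single h' 1) ∈ rootP n := ⟨h, h', hne.symm, rfl⟩
  have h2 : toM (B n) (Pi.single h' 1 - Pi.single h 1) ∈ rootP n := ⟨h', h, hne, rfl⟩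
  have h3 := (convex_convexHull ℝ (rootP n)) (subset_convexHull ℝ _ h1)
    (subset_convexHull ℝ _ h2) (a := 1 / 2) (b := 1 / 2) (by norm_num) (by norm_num) (by norm_num)
  convert h3 using 1
  ext y
  simp only [Pi.zero_apply, Pi.add_apply, Pi.smul_apply, smul_eq_mul, toM, Pi.sub_apply]
  ring

theorem root_dualQ (hn : 1 ≤ n) : polar (rootQ n) = convexHull ℝ (rootP n) :=
  dual_of_dual rootP_finite (zero_mem_rootP hn) (root_dualP hn)

theorem refl_toM (h h' : Hom (B n)) (x : Hom (B n) → ℝ) (hx : ∑ g, x g = 0) :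
    refl (toM (B n) (Pi.single h 1 - Pi.single h' 1)) (toN (B n) (Pi.single h 1 - Pi.single h' 1))
      (toM (B n) x) = toM (B n) (x ∘ Equiv.swap h h') := by
  classical
  have h1 : ∀ i : Fin 1, ∑ d : Option (Fin (B n i)), x ⟨i, d⟩ = 0 := by
    intro i
    have h2 := hx
    rw [Fintype.sum_sigma] at h2
    have h3 : i = 0 := Subsingleton.elim _ _
    subst h3
    simpa using h2
  rw [comp_swap, toM_sub x, toM_smul]
  unfold refl
  rw [fam_pair h1]
  have h4 : ∑ g, x g * (Pi.single h (1 : ℝ) - Pi.single h' 1 : Hom (B n) → ℝ) g = x h - x h' := by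
    simp only [Pi.sub_apply, mul_sub, Finset.sum_sub_distrib, Pi.single_apply, mul_ite, mul_one,
      mul_zero, Finset.sum_ite_eq', Finset.mem_univ, if_true]
  rw [h4]

theorem root_reflP {r : (Idx (B n) → ℝ) × (Idx (B n) → ℝ)} (hr : r ∈ famR (B n))
    {p : Idx (B n) → ℝ} (hp : p ∈ rootP n) : refl r.1 r.2 p ∈ rootP n := by
  classical
  obtain ⟨h, h', _, hne, rfl⟩ := hr
  obtain ⟨g, g', hg, rfl⟩ := hp
  simp only
  rw [refl_toM]
  · refine ⟨Equiv.swap h h' g, Equiv.swap h h' g', fun e => hg ((Equiv.swap h h').injective e), ?_⟩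
    rw [← single_comp_swap, ← single_comp_swap]
    rfl
  · simp only [Pi.sub_apply, Finset.sum_sub_distrib, Pi.single_apply, Finset.sum_ite_eq',
      Finset.mem_univ, if_true, sub_self]

theorem root_reflQ {r : (Idx (B n) → ℝ) × (Idx (B n) → ℝ)} (hr : r ∈ famR (B n))
    {q : Idx (B n) → ℝ} (hq : q ∈ rootQ n) : refl r.2 r.1 q ∈ rootQ n := by
  classical
  obtain ⟨h, h', hh, hne, rfl⟩ := hr
  obtain ⟨S, ⟨g, hg⟩, ⟨g', hg'⟩, rfl⟩ := hq
  simp only
  rw [refl_toN hh]
  refine ⟨Equiv.swap h h' ⁻¹' S, ⟨Equiv.swap h h' g, ?_⟩, ⟨Equiv.swap h h' g', ?_⟩, ?_⟩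
  · rw [Set.mem_preimage, Equiv.swap_apply_self]
    exact hg
  · rw [Set.mem_compl_iff, Set.mem_preimage, Equiv.swap_apply_self]
    exact hg'
  · congr 1

theorem root_chamber {p q : Idx (B n) → ℝ} (hp : p ∈ rootP n)
    (hq : q ∈ rootQ n) (H : ∀ r ∈ famR (B n), 0 ≤ (p ⬝ᵥ r.2) * (q ⬝ᵥ r.1)) : p ⬝ᵥ q = 1 := by
  classical
  obtain ⟨h, h', hne, rfl⟩ := hp
  obtain ⟨S, ⟨g, hg⟩, ⟨g', hg'⟩, rfl⟩ := hq
  have key : ∀ u v : Hom (B n), u ≠ v →
      0 ≤ ((Pi.single u (1 : ℝ) - Pi.single v 1 : Hom (B n) → ℝ) h -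
        (Pi.single u (1 : ℝ) - Pi.single v 1 : Hom (B n) → ℝ) h') *
        ((S.indicator 1 u : ℝ) - (S.indicator 1 v : ℝ)) := by
    intro u v huv
    have h1 := H _ ⟨u, v, fst_eq u v, huv, rfl⟩
    simp only at h1
    rw [root_pair, dotProduct_comm, root_pair] at h1
    exact h1
  rw [root_pair]
  have hgS : (S.indicator 1 g : ℝ) = 1 := by
    rw [Set.indicator_of_mem hg]
    rfl
  have hgS' : (S.indicator 1 g' : ℝ) = 0 := Set.indicator_of_notMem hg' _
  have k0 := key h h' hne
  simp only [Pi.sub_apply, Pi.single_eq_same, Pi.single_eq_of_ne hne,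
    Pi.single_eq_of_ne hne.symm] at k0
  rcases indicator_zero_one S h with h1 | h1 <;> rcases indicator_zero_one S h' with h2 | h2
  · -- both outside
    exfalso
    have hgh : g ≠ h := by
      rintro rfl
      rw [hgS] at h1
      exact one_ne_zero h1
    have hgh' : g ≠ h' := by
      rintro rfl
      rw [hgS] at h2
      exact one_ne_zero h2
    have k1 := key h g hgh.symm
    rw [hgS, h1] at k1
    simp only [Pi.sub_apply, Pi.single_eq_same, Pi.single_eq_of_ne hne.symm,
      Pi.single_eq_of_ne hgh.symm, Pi.single_eq_of_ne hgh'.symm] at k1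
    norm_num at k1
  · exfalso
    rw [h1, h2] at k0
    norm_num at k0
  · rw [h1, h2, sub_zero]
  · exfalso
    have hgh : g' ≠ h := by
      rintro rfl
      rw [hgS'] at h1
      exact zero_ne_one h1
    have hgh' : g' ≠ h' := by
      rintro rfl
      rw [hgS'] at h2
      exact zero_ne_one h2
    have k1 := key g' h' hgh'
    rw [hgS', h2] at k1
    simp only [Pi.sub_apply, Pi.single_eq_same, Pi.single_eq_of_ne hne,
      Pi.single_eq_of_ne hgh.symm, Pi.single_eq_of_ne hgh'.symm] at k1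
    norm_num at k1

end Pool.Agent.H61.OT.Weyl
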