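import Pool.Agent.H15.SYZ.Prod

/-!
# The root polytope of type D and its dual
-/

open Matrix Filter Topology

namespace Pool.Agent.H61.OT.Weyl

/-- The roots `± e_i ± e_j`. -/
def dP (n : ℕ) : Set (Fin n → ℝ) :=
  {p | ∃ i j, i ≠ j ∧ ∃ s t : ℝ, (s = 1 ∨ s = -1) ∧ (t = 1 ∨ t = -1) ∧
    p = Pi.single i s + Pi.single j t}

/-- The vectors `± e_i` and the vectors all of whose coordinates are `± 1/2`. -/
def dQ (n : ℕ) : Set (Fin n → ℝ) :=
  {q | (∃ i, ∃ s : ℝ, (s = 1 ∨ s = -1) ∧ q = Pi.single i s) ∨ ∀ i, q i = 1 / 2 ∨ q i = -1 / 2}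

/-- The reflections in the roots. -/
def dR (n : ℕ) : Set ((Fin n → ℝ) × (Fin n → ℝ)) := {r | r.1 ∈ dP n ∧ r.2 = r.1}

variable {n : ℕ}

theorem dP_dot {i j : Fin n} (s t : ℝ) (x : Fin n → ℝ) :
    (Pi.single i s + Pi.single j t : Fin n → ℝ) ⬝ᵥ x = s * x i + t * x j := by
  rw [add_dotProduct, single_dotProduct, single_dotProduct]

theorem dP_finite : (dP n).Finite := by
  refine ((Set.toFinite {x : Fin n × Fin n × Fin 2 × Fin 2 | True}).image
    fun x => (Pi.single x.1 (if x.2.2.1 = 0 then (1 : ℝ) else -1) +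
      Pi.single x.2.1 (if x.2.2.2 = 0 then (1 : ℝ) else -1) : Fin n → ℝ)).subset ?_
  rintro p ⟨i, j, _, s, t, hs, ht, rfl⟩
  rcases hs with rfl | rfl <;> rcases ht with rfl | rfl
  · exact ⟨(i, j, 0, 0), trivial, by simp⟩
  · exact ⟨(i, j, 0, 1), trivial, by simp⟩
  · exact ⟨(i, j, 1, 0), trivial, by simp⟩
  · exact ⟨(i, j, 1, 1), trivial, by simp⟩

theorem dQ_finite : (dQ n).Finite := by
  have h1 : (Set.pi Set.univ fun _ : Fin n => ({1 / 2, -1 / 2, 0, 1, -1} : Set ℝ)).Finite :=
    Set.Finite.pi fun _ => Set.toFinite _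
  refine h1.subset ?_
  rintro q (⟨i, s, hs, rfl⟩ | hq)
  · intro k _
    by_cases hk : k = i
    · subst hk
      rw [Pi.single_eq_same]
      rcases hs with rfl | rfl <;> simp
    · rw [Pi.single_eq_of_ne hk]
      simp
  · intro k _
    rcases hq k with h | h <;> rw [h] <;> simp

theorem dR_finite : (dR n).Finite := by
  refine ((dP_finite (n := n)).image fun a => (a, a)).subset ?_
  rintro ⟨a, b⟩ ⟨ha, hb⟩
  have hb' : b = a := hb
  subst hb'
  exact ⟨b, ha, rfl⟩

theorem d_root {r : (Fin n → ℝ) × (Fin n → ℝ)} (hr : r ∈ dR n) : r.1 ⬝ᵥ r.2 = 2 := by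
  obtain ⟨⟨i, j, hij, s, t, hs, ht, h⟩, h2⟩ := hr
  rw [h2, h, dP_dot]
  simp only [Pi.add_apply, Pi.single_eq_same, Pi.single_eq_of_ne hij, Pi.single_eq_of_ne hij.symm]
  rcases hs with rfl | rfl <;> rcases ht with rfl | rfl <;> norm_num

theorem d_le {p q : Fin n → ℝ} (hp : p ∈ dP n) (hq : q ∈ dQ n) : p ⬝ᵥ q ≤ 1 := by
  obtain ⟨i, j, hij, s, t, hs, ht, rfl⟩ := hp
  rw [dP_dot]
  rcases hq with ⟨k, u, hu, rfl⟩ | hq
  · by_cases h1 : i = k
    · subst h1
      rw [Pi.single_eq_same, Pi.single_eq_of_ne hij.symm]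
      rcases hs with rfl | rfl <;> rcases hu with rfl | rfl <;> norm_num
    · rw [Pi.single_eq_of_ne h1]
      by_cases h2 : j = k
      · subst h2
        rw [Pi.single_eq_same]
        rcases ht with rfl | rfl <;> rcases hu with rfl | rfl <;> norm_num
      · rw [Pi.single_eq_of_ne h2]
        norm_num
  · rcases hs with rfl | rfl <;> rcases ht with rfl | rfl <;> rcases hq i with h1 | h1 <;>
      rcases hq j with h2 | h2 <;> rw [h1, h2] <;> norm_num

/-- The cube. -/
theorem cube_mem {y : Fin n → ℝ} (hy : ∀ i, |y i| ≤ 1 / 2) : y ∈ convexHull ℝ (dQ n) := by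
  have h1 : y ∈ convexHull ℝ (Set.pi Set.univ fun _ : Fin n => ({-1 / 2, 1 / 2} : Set ℝ)) := by
    rw [convexHull_pi]
    intro i _
    rw [convexHull_pair, segment_eq_Icc (by norm_num)]
    have := abs_le.1 (hy i)
    exact ⟨by linarith [this.1], this.2⟩
  refine convexHull_mono ?_ h1
  intro z hz
  right
  intro i
  have h2 : z i = -1 / 2 ∨ z i = 1 / 2 := hz i (Set.mem_univ i)
  exact h2.symm

theorem d_zeroQ : (0 : Fin n → ℝ) ∈ convexHull ℝ (dQ n) := by
  refine cube_mem fun i => ?_
  simp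

theorem d_zeroP (hn : 2 ≤ n) : (0 : Fin n → ℝ) ∈ convexHull ℝ (dP n) := by
  set i : Fin n := ⟨0, by omega⟩
  set j : Fin n := ⟨1, by omega⟩
  have hij : i ≠ j := by
    intro h
    exact absurd (Fin.mk.inj_iff.1 h) (by norm_num)
  have h1 : (Pi.single i 1 + Pi.single j 1 : Fin n → ℝ) ∈ dP n :=
    ⟨i, j, hij, 1, 1, Or.inl rfl, Or.inl rfl, rfl⟩
  have h2 : (Pi.single i (-1) + Pi.single j (-1) : Fin n → ℝ) ∈ dP n :=
    ⟨i, j, hij, -1, -1, Or.inr rfl, Or.inr rfl, rfl⟩
  have h3 := (convex_convexHull ℝ (dP n)) (subset_convexHull ℝ _ h1)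
    (subset_convexHull ℝ _ h2) (a := 1 / 2) (b := 1 / 2) (by norm_num) (by norm_num) (by norm_num)
  convert h3 using 1
  rw [Pi.single_neg, Pi.single_neg]
  module

theorem d_dualP (hn : 2 ≤ n) : polar (dP n) = convexHull ℝ (dQ n) := by
  apply Set.Subset.antisymm
  · intro y hy
    have hab : ∀ i j, i ≠ j → |y i| + |y j| ≤ 1 := by
      intro i j hij
      have key : ∀ s t : ℝ, (s = 1 ∨ s = -1) → (t = 1 ∨ t = -1) → s * y i + t * y j ≤ 1 := by
        intro s t hs ht
        have h1 := hy _ ⟨i, j, hij, s, t, hs, ht, rfl⟩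
        rwa [dotProduct_comm, dP_dot] at h1
      have k1 := key 1 1 (Or.inl rfl) (Or.inl rfl)
      have k2 := key 1 (-1) (Or.inl rfl) (Or.inr rfl)
      have k3 := key (-1) 1 (Or.inr rfl) (Or.inl rfl)
      have k4 := key (-1) (-1) (Or.inr rfl) (Or.inr rfl)
      rcases abs_cases (y i) with ⟨e1, _⟩ | ⟨e1, _⟩ <;> rcases abs_cases (y j) with ⟨e2, _⟩ | ⟨e2, _⟩ <;>
        rw [e1, e2] <;> linarith
    by_cases hall : ∀ i, |y i| ≤ 1 / 2
    · exact cube_mem hall
    · push Not at hall
      obtain ⟨k, hk⟩ := hall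
      obtain ⟨l, hl⟩ : ∃ l : Fin n, k ≠ l := by
        by_cases h0 : k.1 = 0
        · exact ⟨⟨1, by omega⟩, fun h => by rw [h] at h0; exact absurd h0 (by norm_num)⟩
        · exact ⟨⟨0, by omega⟩, fun h => h0 (by rw [h])⟩
      have hk1 : |y k| ≤ 1 := by
        have := hab k l hl
        have := abs_nonneg (y l)
        linarith
      obtain ⟨s, hs, hsk⟩ : ∃ s : ℝ, (s = 1 ∨ s = -1) ∧ y k = s * |y k| := by
        rcases abs_cases (y k) with ⟨e1, _⟩ | ⟨e1, _⟩
        · exact ⟨1, Or.inl rfl, by rw [e1, one_mul]⟩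
        · exact ⟨-1, Or.inr rfl, by rw [e1]; ring⟩
      have hsm : (Pi.single k s : Fin n → ℝ) ∈ convexHull ℝ (dQ n) :=
        subset_convexHull ℝ _ (Or.inl ⟨k, s, hs, rfl⟩)
      have habs : |s| = 1 := by rcases hs with rfl | rfl <;> norm_num
      set t : ℝ := 2 * |y k| - 1 with ht
      have ht0 : 0 < t := by linarith
      have ht1 : t ≤ 1 := by linarith
      rcases eq_or_lt_of_le ht1 with h1 | h1
      · -- then `y` is a vertex
        have h2 : |y k| = 1 := by linarith
        have h3 : y = Pi.single k s := by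
          ext i
          by_cases hi : i = k
          · subst hi
            rw [Pi.single_eq_same, hsk, h2, mul_one]
          · rw [Pi.single_eq_of_ne hi]
            have h4 := hab k i (Ne.symm hi)
            rw [h2] at h4
            exact abs_nonpos_iff.1 (by linarith)
        rw [h3]
        exact hsm
      · have h2 : 0 < 1 - t := by linarith
        set z : Fin n → ℝ := (1 - t)⁻¹ • (y - t • Pi.single k s) with hz
        have hzm : z ∈ convexHull ℝ (dQ n) := by
          refine cube_mem fun i => ?_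
          have h3 : |(y - t • Pi.single k s : Fin n → ℝ) i| ≤ (1 - t) / 2 := by
            by_cases hi : i = k
            · subst hi
              rw [Pi.sub_apply, Pi.smul_apply, Pi.single_eq_same, smul_eq_mul, hsk]
              have h4 : s * |y i| - t * s = s * (1 - |y i|) := by rw [ht]; ring
              rw [h4, abs_mul, habs, one_mul, abs_of_nonneg (by linarith)]
              rw [ht]
              linarith
            · rw [Pi.sub_apply, Pi.smul_apply, Pi.single_eq_of_ne hi, smul_zero, sub_zero]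
              have h4 := hab k i (Ne.symm hi)
              rw [ht]
              linarith
          rw [hz, Pi.smul_apply, smul_eq_mul, abs_mul, abs_of_pos (inv_pos.2 h2)]
          have h5 := mul_le_mul_of_nonneg_left h3 (inv_nonneg.2 h2.le)
          have h6 : (1 - t)⁻¹ * ((1 - t) / 2) = 1 / 2 := by
            field_simp
          rw [h6] at h5
          exact h5
        have h3 := (convex_convexHull ℝ (dQ n)) hsm hzm ht0.le h2.le (by ring)
        have h4 : t • Pi.single k s + (1 - t) • z = y := by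
          rw [hz, smul_smul, mul_inv_cancel₀ h2.ne', one_smul]
          abel
        rw [h4] at h3
        exact h3
  · refine convexHull_min ?_ (convex_polar _)
    intro q hq p hp
    rw [dotProduct_comm]
    exact d_le hp hq

theorem d_dualQ (hn : 2 ≤ n) : polar (dQ n) = convexHull ℝ (dP n) :=
  dual_of_dual dP_finite (d_zeroP hn) (d_dualP hn)

theorem d_refl {i j : Fin n} (hij : i ≠ j) {s t : ℝ} (hs : s = 1 ∨ s = -1) (ht : t = 1 ∨ t = -1)
    (x : Fin n → ℝ) :
    refl (Pi.single i s + Pi.single j t) (Pi.single i s + Pi.single j t) x =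
      fun k => if k = i then -(s * t) * x j else if k = j then -(s * t) * x i else x k := by
  have hs2 : s * s = 1 := by rcases hs with rfl | rfl <;> norm_num
  have ht2 : t * t = 1 := by rcases ht with rfl | rfl <;> norm_num
  ext k
  unfold refl
  rw [dotProduct_comm, dP_dot]
  simp only [Pi.sub_apply, Pi.smul_apply, Pi.add_apply, smul_eq_mul]
  by_cases hk : k = i
  · subst hk
    rw [if_pos rfl, Pi.single_eq_same, Pi.single_eq_of_ne hij]
    linear_combination (-(x k)) * hs2
  · rw [if_neg hk]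
    by_cases hk2 : k = j
    · subst hk2
      rw [if_pos rfl, Pi.single_eq_same, Pi.single_eq_of_ne hk]
      linear_combination (-(x k)) * ht2
    · rw [if_neg hk2, Pi.single_eq_of_ne hk, Pi.single_eq_of_ne hk2]
      ring

theorem d_refl_single {i j : Fin n} (hij : i ≠ j) {s t : ℝ} (hs : s = 1 ∨ s = -1)
    (ht : t = 1 ∨ t = -1) (k : Fin n) (u : ℝ) (hu : u = 1 ∨ u = -1) :
    ∃ v : ℝ, (v = 1 ∨ v = -1) ∧
      refl (Pi.single i s + Pi.single j t) (Pi.single i s + Pi.single j t) (Pi.single k u) =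
        Pi.single (Equiv.swap i j k) v := by
  rw [d_refl hij hs ht]
  have hst : -(s * t) = 1 ∨ -(s * t) = -1 := by
    rcases hs with rfl | rfl <;> rcases ht with rfl | rfl <;> norm_num
  have hstu : -(s * t) * u = 1 ∨ -(s * t) * u = -1 := by
    rcases hst with h | h <;> rcases hu with rfl | rfl <;> rw [h] <;> norm_num
  by_cases h1 : k = i
  · subst h1
    refine ⟨-(s * t) * u, hstu, ?_⟩
    rw [Equiv.swap_apply_left]
    ext l
    by_cases hl : l = j
    · subst hl
      rw [if_neg (Ne.symm hij), if_pos rfl, Pi.single_eq_same, Pi.single_eq_same]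
    · rw [Pi.single_eq_of_ne hl]
      by_cases hl2 : l = k
      · subst hl2
        rw [if_pos rfl, Pi.single_eq_of_ne (Ne.symm hij), mul_zero]
      · rw [if_neg hl2, if_neg hl, Pi.single_eq_of_ne hl2]
  · by_cases h2 : k = j
    · subst h2
      refine ⟨-(s * t) * u, hstu, ?_⟩
      rw [Equiv.swap_apply_right]
      ext l
      by_cases hl : l = i
      · subst hl
        rw [if_pos rfl, Pi.single_eq_same, Pi.single_eq_same]
      · rw [Pi.single_eq_of_ne hl, if_neg hl]
        by_cases hl2 : l = k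
        · subst hl2
          rw [if_pos rfl, Pi.single_eq_of_ne hij, mul_zero]
        · rw [if_neg hl2, Pi.single_eq_of_ne hl2]
    · refine ⟨u, hu, ?_⟩
      rw [Equiv.swap_apply_of_ne_of_ne h1 h2]
      ext l
      by_cases hl : l = i
      · subst hl
        rw [if_pos rfl, Pi.single_eq_of_ne (Ne.symm h2), Pi.single_eq_of_ne (Ne.symm h1), mul_zero]
      · rw [if_neg hl]
        by_cases hl2 : l = j
        · subst hl2
          rw [if_pos rfl, Pi.single_eq_of_ne (Ne.symm h1), Pi.single_eq_of_ne (Ne.symm h2),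
            mul_zero]
        · rw [if_neg hl2]

theorem refl_add (a b x y : Fin n → ℝ) : refl a b (x + y) = refl a b x + refl a b y := by
  unfold refl
  rw [add_dotProduct, add_smul]
  abel

theorem d_reflP {r : (Fin n → ℝ) × (Fin n → ℝ)} (hr : r ∈ dR n) {p : Fin n → ℝ}
    (hp : p ∈ dP n) : refl r.1 r.2 p ∈ dP n := by
  obtain ⟨⟨i, j, hij, s, t, hs, ht, h⟩, h2⟩ := hr
  rw [h2, h]
  obtain ⟨k, l, hkl, u, v, hu, hv, rfl⟩ := hp
  rw [refl_add]
  obtain ⟨u', hu', e1⟩ := d_refl_single hij hs ht k u hu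
  obtain ⟨v', hv', e2⟩ := d_refl_single hij hs ht l v hv
  rw [e1, e2]
  exact ⟨_, _, fun e => hkl ((Equiv.swap i j).injective e), u', v', hu', hv', rfl⟩

theorem d_reflQ {r : (Fin n → ℝ) × (Fin n → ℝ)} (hr : r ∈ dR n) {q : Fin n → ℝ}
    (hq : q ∈ dQ n) : refl r.2 r.1 q ∈ dQ n := by
  obtain ⟨⟨i, j, hij, s, t, hs, ht, h⟩, h2⟩ := hr
  rw [h2, h]
  rcases hq with ⟨k, u, hu, rfl⟩ | hq
  · obtain ⟨u', hu', e1⟩ := d_refl_single hij hs ht k u hu
    rw [e1]
    exact Or.inl ⟨_, u', hu', rfl⟩
  · right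
    intro k
    rw [d_refl hij hs ht]
    have hst : -(s * t) = 1 ∨ -(s * t) = -1 := by
      rcases hs with rfl | rfl <;> rcases ht with rfl | rfl <;> norm_num
    have key : ∀ l, -(s * t) * q l = 1 / 2 ∨ -(s * t) * q l = -1 / 2 := by
      intro l
      rcases hst with h3 | h3 <;> rcases hq l with h4 | h4 <;> rw [h3, h4] <;> norm_num
    show (if k = i then -(s * t) * q j else if k = j then -(s * t) * q i else q k) = 1 / 2 ∨
      (if k = i then -(s * t) * q j else if k = j then -(s * t) * q i else q k) = -1 / 2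
    split_ifs
    · exact key j
    · exact key i
    · exact hq k

theorem d_chamber (hn : 3 ≤ n) {p q : Fin n → ℝ} (hp : p ∈ dP n) (hq : q ∈ dQ n)
    (H : ∀ r ∈ dR n, 0 ≤ (p ⬝ᵥ r.2) * (q ⬝ᵥ r.1)) : p ⬝ᵥ q = 1 := by
  obtain ⟨i, j, hij, s, t, hs, ht, rfl⟩ := hp
  have key : ∀ (k l : Fin n), k ≠ l → ∀ u v : ℝ, (u = 1 ∨ u = -1) → (v = 1 ∨ v = -1) →
      0 ≤ (s * (Pi.single k u + Pi.single l v : Fin n → ℝ) i +
        t * (Pi.single k u + Pi.single l v : Fin n → ℝ) j) * (u * q k + v * q l) := by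
    intro k l hkl u v hu hv
    have h1 := H (Pi.single k u + Pi.single l v, Pi.single k u + Pi.single l v)
      ⟨⟨k, l, hkl, u, v, hu, hv, rfl⟩, rfl⟩
    simp only at h1
    rw [dP_dot, dotProduct_comm q, dP_dot] at h1
    exact h1
  have hs2 : s * s = 1 := by rcases hs with rfl | rfl <;> norm_num
  have ht2 : t * t = 1 := by rcases ht with rfl | rfl <;> norm_num
  rw [dP_dot]
  obtain ⟨m, hmi, hmj⟩ : ∃ m : Fin n, m ≠ i ∧ m ≠ j := by
    by_contra hcon
    push Not at hcon
    have h1 : (Finset.univ : Finset (Fin n)) ⊆ {i, j} := by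
      intro m _
      by_cases h2 : m = i
      · simp [h2]
      · simp [hcon m h2]
    have h2 := Finset.card_le_card h1
    rw [Finset.card_univ, Fintype.card_fin] at h2
    have h3 : ({i, j} : Finset (Fin n)).card ≤ 2 := Finset.card_le_two
    omega
  -- the root `p` itself
  have k0 := key i j hij s t hs ht
  simp only [Pi.add_apply, Pi.single_eq_same, Pi.single_eq_of_ne hij,
    Pi.single_eq_of_ne hij.symm, add_zero, zero_add, hs2, ht2] at k0
  have k0' : 0 ≤ s * q i + t * q j := by linarith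
  rcases hq with ⟨k, w, hw, rfl⟩ | hq
  · by_cases h1 : k = i
    · subst h1
      rw [Pi.single_eq_same, Pi.single_eq_of_ne hij.symm] at k0' ⊢
      rcases hs with rfl | rfl <;> rcases hw with rfl | rfl <;>
        first | (norm_num; done) | (exfalso; norm_num at k0')
    · by_cases h2 : k = j
      · subst h2
        rw [Pi.single_eq_same, Pi.single_eq_of_ne hij] at k0' ⊢
        rcases ht with rfl | rfl <;> rcases hw with rfl | rfl <;>
          first | (norm_num; done) | (exfalso; norm_num at k0')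
      · exfalso
        have hw' : -w = 1 ∨ -w = -1 := by rcases hw with rfl | rfl <;> norm_num
        have k1 := key i k (Ne.symm h1) s (-w) hs hw'
        have hw2 : w * w = 1 := by rcases hw with rfl | rfl <;> norm_num
        simp only [Pi.add_apply, Pi.single_eq_same, Pi.single_eq_of_ne (Ne.symm h1),
          Pi.single_eq_of_ne hij.symm, Pi.single_eq_of_ne (Ne.symm h2), mul_zero, add_zero,
          zero_add, hs2] at k1
        nlinarith
  · -- half spin vectors
    have hi := hq i
    have hj := hq j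
    have hm := hq m
    have e1 : s * q i = 1 / 2 ∨ s * q i = -1 / 2 := by
      rcases hs with rfl | rfl <;> rcases hi with h | h <;> rw [h] <;> norm_num
    have e2 : t * q j = 1 / 2 ∨ t * q j = -1 / 2 := by
      rcases ht with rfl | rfl <;> rcases hj with h | h <;> rw [h] <;> norm_num
    obtain ⟨v, hv, hvm⟩ : ∃ v : ℝ, (v = 1 ∨ v = -1) ∧ v * q m = -1 / 2 := by
      rcases hm with h | h
      · exact ⟨-1, Or.inr rfl, by rw [h]; norm_num⟩
      · exact ⟨1, Or.inl rfl, by rw [h]; norm_num⟩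
    rcases e1 with e1 | e1
    · rcases e2 with e2 | e2
      · rw [e1, e2]
        norm_num
      · exfalso
        have k1 := key j m (Ne.symm hmj) t v ht hv
        simp only [Pi.add_apply, Pi.single_eq_same, Pi.single_eq_of_ne hij,
          Pi.single_eq_of_ne (Ne.symm hmi), Pi.single_eq_of_ne (Ne.symm hmj), mul_zero, add_zero,
          zero_add, ht2, e2, hvm] at k1
        norm_num at k1
    · rcases e2 with e2 | e2
      · exfalso
        have k1 := key i m (Ne.symm hmi) s v hs hv
        simp only [Pi.add_apply, Pi.single_eq_same, Pi.single_eq_of_ne hij.symm,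
          Pi.single_eq_of_ne (Ne.symm hmi), Pi.single_eq_of_ne (Ne.symm hmj), mul_zero, add_zero,
          zero_add, hs2, e1, hvm] at k1
        norm_num at k1
      · exfalso
        rw [e1, e2] at k0'
        norm_num at k0'

end Pool.Agent.H61.OT.Weyl
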