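import Pool.Agent.H99.SYZ.Main

/-!
# Stability for invariant heights and arbitrary invariant measures
-/

open MeasureTheory Matrix Filter
open Pool.Agent.H61.OT

namespace Pool.Agent.H99.SYZ.Weyl

variable {ι : Type} [Fintype ι] {P Q : Set (ι → ℝ)} {R : Set ((ι → ℝ) × (ι → ℝ))}
  {g h : (ι → ℝ) → ℝ}

/-- A vertex pairs to one with some normal in its chamber. -/
theorem exists_one {P Q : Set (ι → ℝ)} {R : Set ((ι → ℝ) × (ι → ℝ))} (hQ : Q.Finite)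
    (hPQ : polar P = convexHull ℝ Q)
    (reflQ : ∀ r ∈ R, ∀ q ∈ Q, Pool.Agent.H61.OT.refl r.2 r.1 q ∈ Q)
    {p : ι → ℝ} (hch : ∀ q ∈ Q, (∀ r ∈ R, 0 ≤ (p ⬝ᵥ r.2) * (q ⬝ᵥ r.1)) → p ⬝ᵥ q = 1) :
    ∃ q ∈ Q, p ⬝ᵥ q = 1 := by
  have h0 : (0 : ι → ℝ) ∈ polar P := fun p _ => by
    rw [zero_dotProduct]
    exact zero_le_one
  rw [hPQ] at h0
  have hne : Q.Nonempty := convexHull_nonempty_iff.1 ⟨0, h0⟩
  obtain ⟨q, hq, hmax⟩ := Set.exists_max_image Q (fun q => p ⬝ᵥ q) hQ hne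
  refine ⟨q, hq, hch q hq fun r hr => ?_⟩
  have h1 := hmax _ (reflQ r hr q hq)
  rw [dot_refl] at h1
  linarith

theorem stable_heights (H : IsDualPair P Q R) (Hh : IsHeights P Q R g h)
    (hch : ∀ p ∈ P, ∀ q ∈ Q, (∀ r ∈ R, 0 ≤ (p ⬝ᵥ r.2) * (q ⬝ᵥ r.1)) → p ⬝ᵥ q = 1)
    {ν μ : Measure (ι → ℝ)} [IsProbabilityMeasure ν] [IsProbabilityMeasure μ]
    (hνQ : ∀ᵐ m ∂ν, ∃ q ∈ Q, m ∈ face Q g q) (hμP : ∀ᵐ n ∂μ, ∃ p ∈ P, n ∈ face P h p)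
    (hν : ∀ r ∈ R, ν.map (Pool.Agent.H61.OT.refl r.1 r.2) = ν)
    (hμ : ∀ r ∈ R, μ.map (Pool.Agent.H61.OT.refl r.2 r.1) = μ) :
    (∃ γ, IsOptimal ν μ γ) ∧ ∀ γ, IsOptimal ν μ γ → ∀ᵐ x ∂γ, ∃ p ∈ P, ∃ q ∈ Q,
      p ⬝ᵥ q = 1 ∧ x.1 ∈ face Q g q ∧ x.2 ∈ face P h p := by
  have hbQ : Bornology.IsBounded (poly Q g) := H.bounded
  have hbP : Bornology.IsBounded (poly P h) := H.swap.bounded
  have haeν : ∀ᵐ m ∂ν, m ∈ poly Q g := hνQ.mono fun m ⟨q, _, hm⟩ => face_subset_poly hm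
  have haeμ : ∀ᵐ n ∂μ, n ∈ poly P h := hμP.mono fun n ⟨p, _, hn⟩ => face_subset_poly hn
  refine ⟨exists_optimal hbQ hbP haeν haeμ, fun γ hγ => ?_⟩
  have h1 : ∀ᵐ x ∂γ, ∀ r ∈ R, 0 ≤ (x.1 ⬝ᵥ r.2) * (x.2 ⬝ᵥ r.1) := by
    rw [Filter.eventually_all_finite H.finR]
    intro r hr
    exact refl_null hbQ hbP haeν haeμ (H.root r hr) (hν r hr) (hμ r hr) hγ
  filter_upwards [h1, hγ.1.ae_mem hνQ hμP] with x hx1 hx3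
  obtain ⟨⟨q, hq, hm⟩, p, hp, hn⟩ := hx3
  exact ⟨p, hp, q, hq, hch p hp q hq fun r hr => face_sign H Hh hr hp hq hm hn (hx1 r hr), hm, hn⟩

theorem bdProb_admissible (H : IsDualPair P Q R) (Hh : IsHeights P Q R g h) :
    bdProb Q g Set.univ = 1 ∧ bdProb P h Set.univ = 1 ∧
    (∀ᵐ m ∂(bdProb Q g), ∃ q ∈ Q, m ∈ face Q g q) ∧
    (∀ᵐ n ∂(bdProb P h), ∃ p ∈ P, n ∈ face P h p) ∧
    (∀ r ∈ R, (bdProb Q g).map (Pool.Agent.H61.OT.refl r.1 r.2) = bdProb Q g) ∧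
    (∀ r ∈ R, (bdProb P h).map (Pool.Agent.H61.OT.refl r.2 r.1) = bdProb P h) := by
  obtain ⟨h1, h2, -, -⟩ := main H Hh
  exact ⟨h1, h2, bdProb_ae H.finQ Hh.posg, bdProb_ae H.finP Hh.posh,
    fun r hr => bdProb_map_refl H.finQ (H.root r hr) (H.reflQ r hr) (Hh.symg r hr),
    fun r hr => bdProb_map_refl H.finP (by rw [dotProduct_comm]; exact H.root r hr)
      (H.reflP r hr) (Hh.symh r hr)⟩

end Pool.Agent.H99.SYZ.Weyl
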